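import Pool.Agent.MP_d1f1f3_co.H33.Stm

/-!
A triangle at a vertex of degree three, and threads with three inner vertices and adjacent ends.
-/

namespace Pool.Agent.MP_d1f1f3_co.H33

open Finset Pool.Agent.MP_d1f1f3_co.H47 Pool.Agent.MP_d1f1f3_co.H47.Red
open scoped Classical

noncomputable section

variable {V : Type} [Fintype V]

/-- A triangle with two vertices of degree two and one of degree three. -/
theorem paw {p : ℕ → Prop} {G : SimpleGraph V} {a x y : V} (ih : IH p G) (da : dg G a = 3)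
    (dx : dg G x = 2) (dy : dg G y = 2) (ax : G.Adj a x) (xy : G.Adj x y) (ya : G.Adj y a) :
    Star p G ∧ Mai p G := by
  obtain ⟨s, hs, hs'⟩ := exists_mem_notMem_of_card_lt_card (s := {x, y}) (t := N G a)
    (by rw [card_pair xy.ne, ← dg, da]; norm_num)
  have as := mem_N.1 hs
  simp only [mem_insert, mem_singleton, not_or] at hs'
  have ne : (a ≠ x ∧ x ≠ y ∧ a ≠ y ∧ a ≠ s ∧ x ≠ s ∧ y ≠ s) ∧
      x ≠ a ∧ y ≠ x ∧ y ≠ a ∧ s ≠ a ∧ s ≠ x ∧ s ≠ y :=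
    ⟨⟨ax.ne, xy.ne, ya.ne', as.ne, Ne.symm hs'.1, Ne.symm hs'.2⟩, ax.ne', xy.ne', ya.ne, as.ne', hs'⟩
  have Na := N3 da ax ya.symm as xy.ne (Ne.symm hs'.1) (Ne.symm hs'.2)
  have Nx := N2 dx ax.symm xy ya.ne'
  have Ny := N2 dy ya xy.symm ax.ne
  have hN := fun u => N_md (G := G) (W := {x, y}) (p := x) (q := x) (v := u) (by simp) (by simp)
  have M : ∀ u, u = x ∨ u = y → N (md G {x, y} x x) u = {a} := by
    rintro u (rfl | rfl) <;> ext w <;> simp only [mem_N, md_adj] <;>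
      simp only [← mem_N, Nx, Ny] <;> grind
  have Dx : dg (md G {x, y} x x) x = 1 := by rw [dg, M x (by simp), card_singleton]
  have Dy : dg (md G {x, y} x x) y = 1 := by rw [dg, M y (by simp), card_singleton]
  have Da : dg (md G {x, y} x x) a = dg G a := dg_congr (hN a (by simp [ne]))
  refine reduce ih (md G {x, y} x x) {a, x, y} (by simp [K, da, dx, dy])
    (fun u hu => hN u (by grind)) (by simp [da, dx, dy, Dx, Dy, Da]) ⟨x, by simp, by omega⟩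
    (fun hd => by simpa [Dx, Dy, Da] using hd a) (fun u hu w hw => ?_)
    (fun _ Y hY u hu h => by have := (hY.2 u h).1; grind) fun c hc t _ _ => ?_
  · have h := mem_N.2 hw
    simp only [mem_insert, mem_singleton] at hu
    rcases hu with rfl | hu
    · exact Or.inl (by rw [K]; omega)
    · rw [M u hu, mem_singleton] at h
      exact Or.inr (by rw [h, K]; omega)
  have r := hc.2.1 a s (mem_N.1 (by rw [hN a (by simp [ne])]; exact hs))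
  obtain ⟨k, l, hk, hl, h⟩ : ∃ k l, (1 ≤ k ∧ k ≤ 4) ∧ (1 ≤ l ∧ l ≤ 4) ∧ 1 < k ∧ k < l ∧
      k + l + c a s ≠ t s := by
    by_cases h : 2 + 3 + c a s = t s
    exacts [⟨2, 4, by omega, by omega, by omega⟩, ⟨2, 3, by omega, by omega, by omega⟩]
  refine ⟨ed a x k (ed a y l fun _ _ => 1), ed_symm (ed_symm fun _ _ => rfl),
    ed_rng hk (ed_rng hl (by simp)), ?_⟩
  generalize hg : gl {a, x, y} _ c = g
  have ⟨_, sa, qa⟩ := loc3 (c := g) Na xy.ne (Ne.symm hs'.1) (Ne.symm hs'.2)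
  have ⟨_, sx, qx⟩ := loc2 (c := g) Nx ya.ne'
  have ⟨_, sy, qy⟩ := loc2 (c := g) Ny ax.ne
  have e : (g a x = k ∧ g a y = l ∧ g a s = c a s) ∧ (g x a = k ∧ g x y = 1) ∧
      g y a = l ∧ g y x = 1 := by
    subst hg
    simp [gl, ed, ne]
  simp only [mem_insert, mem_singleton, forall_eq_or_imp, forall_eq, ← mem_N, Na, Nx, Ny, qa, qx,
    qy, sa, sx, sy, e, true_or, or_true, if_true, or_self, if_false, ne]
  refine ⟨⟨?_, ?_, ?_, ?_⟩, ⟨?_, ?_, ?_⟩, ?_, ?_, ?_⟩ <;> omega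

/-- A thread with three inner vertices. -/
structure Th (G : SimpleGraph V) (a x₁ x₂ x₃ b : V) : Prop where
  da : 3 ≤ dg G a
  db : 3 ≤ dg G b
  d₁ : dg G x₁ = 2
  d₂ : dg G x₂ = 2
  d₃ : dg G x₃ = 2
  e₀ : G.Adj a x₁
  e₁ : G.Adj x₁ x₂
  e₂ : G.Adj x₂ x₃
  e₃ : G.Adj x₃ b
  ne : x₁ ≠ x₃

variable {G : SimpleGraph V} {a x₁ x₂ x₃ b : V}

theorem Th.symm (h : Th G a x₁ x₂ x₃ b) : Th G b x₃ x₂ x₁ a :=
  ⟨h.db, h.da, h.d₃, h.d₂, h.d₁, h.e₃.symm, h.e₂.symm, h.e₁.symm, h.e₀.symm, h.ne.symm⟩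

theorem Th.nes (h : Th G a x₁ x₂ x₃ b) : (a ≠ x₁ ∧ a ≠ x₂ ∧ a ≠ x₃ ∧ b ≠ x₁ ∧ b ≠ x₂ ∧ b ≠ x₃) ∧
    (x₁ ≠ a ∧ x₂ ≠ a ∧ x₃ ≠ a ∧ x₁ ≠ b ∧ x₂ ≠ b ∧ x₃ ≠ b) ∧
    x₁ ≠ x₂ ∧ x₁ ≠ x₃ ∧ x₂ ≠ x₃ ∧ x₂ ≠ x₁ ∧ x₃ ≠ x₁ ∧ x₃ ≠ x₂ := by
  obtain ⟨da, db, d₁, d₂, d₃, -, e₁, e₂, -, ne⟩ := h
  have := e₁.ne
  have := e₂.ne
  refine ⟨⟨?_, ?_, ?_, ?_, ?_, ?_⟩, ⟨?_, ?_, ?_, ?_, ?_, ?_⟩, ?_, ?_, ?_, ?_, ?_, ?_⟩ <;> grind

theorem Th.N₁ (h : Th G a x₁ x₂ x₃ b) : N G x₁ = {a, x₂} := N2 h.d₁ h.e₀.symm h.e₁ h.nes.1.2.1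

theorem Th.N₂ (h : Th G a x₁ x₂ x₃ b) : N G x₂ = {x₁, x₃} := N2 h.d₂ h.e₁.symm h.e₂ h.ne

theorem fill (c₀ c₃ A B : ℕ) (h : c₀ + 5 ≤ A ∨ c₃ + 5 ≤ B) : ∃ k l, (1 ≤ k ∧ k ≤ 4) ∧
    (1 ≤ l ∧ l ≤ 4) ∧ c₀ ≠ k ∧ k ≠ l ∧ c₃ ≠ l ∧ c₀ ≠ l ∧ c₃ ≠ k ∧ c₀ + k ≠ A ∧ c₃ + l ≠ B := by
  rcases h with h | h
  · obtain ⟨l, hl, h1⟩ := pick 0 c₀ c₃ (B - c₃)
    obtain ⟨k, hk, h2⟩ := pick 0 c₀ c₃ l
    refine ⟨k, l, hk, hl, ?_, ?_, ?_, ?_, ?_, ?_, ?_⟩ <;> omega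
  · obtain ⟨k, hk, h1⟩ := pick 0 c₀ c₃ (A - c₀)
    obtain ⟨l, hl, h2⟩ := pick 0 c₀ c₃ k
    refine ⟨k, l, hk, hl, ?_, ?_, ?_, ?_, ?_, ?_, ?_⟩ <;> omega

theorem Th.cut (h : Th G a x₁ x₂ x₃ b) : (∀ u, u ∉ ({x₁, x₂, x₃} : Finset V) →
    N (md G {x₁, x₂, x₃} x₁ x₁) u = N G u) ∧ N (md G {x₁, x₂, x₃} x₁ x₁) x₁ = {a} ∧
    N (md G {x₁, x₂, x₃} x₁ x₁) x₂ = ∅ ∧ N (md G {x₁, x₂, x₃} x₁ x₁) x₃ = {b} := by
  have ne := h.nes
  refine ⟨fun u => N_md (by simp) (by simp), ?_, ?_, ?_⟩ <;> ext w <;>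
    simp only [mem_N, md_adj] <;> simp only [← mem_N, h.N₁, h.N₂, h.symm.N₁] <;> grind

/-- The hypotheses of `reduce` for the graph without the two middle edges. -/
theorem Th.red (h : Th G a x₁ x₂ x₃ b) (ih : IH tp G) (W : Finset V) (h1 : x₁ ∈ W) (h2 : x₂ ∈ W)
    (h3 : x₃ ∈ W) (hW : W ⊆ {a, b, x₁, x₂, x₃})
    (hext : ∀ c', Col (md G {x₁, x₂, x₃} x₁ x₁) c' → ∀ s : V → ℕ,
      (∀ w, K (md G {x₁, x₂, x₃} x₁ x₁) w → s w = sg (md G {x₁, x₂, x₃} x₁ x₁) c' w) →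
      Ext G W c' s) : Star tp G ∧ Mai tp G := by
  obtain ⟨hN, M₁, M₂, M₃⟩ := h.cut
  have ne := h.nes
  have D₁ := congrArg card M₁
  have D₂ := congrArg card M₂
  have D₃ := congrArg card M₃
  have Da := dg_congr (hN a (by simp [ne]))
  have Db := dg_congr (hN b (by simp [ne]))
  simp only [← dg.eq_1, card_singleton, card_empty] at D₁ D₂ D₃
  obtain ⟨da, db, d₁, d₂, d₃, -⟩ := h
  have cs : ∀ u ∈ W, u = a ∨ u = b ∨ u = x₁ ∨ u = x₂ ∨ u = x₃ := fun u hu => by simpa using hW hu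
  refine reduce ih _ W (fun u hu => by have := cs u hu; unfold K; grind)
    (fun u hu => hN u (by grind)) (fun u hu => by have := cs u hu; grind) ⟨x₁, h1, by omega⟩
    (fun _ _ _ => Or.inr trivial) (fun u hu w hw => ?_)
    (fun _ Y hY u hu h => by have := (hY.2 u h).1; have := cs u hu; grind)
    fun c hc s hs _ => hext c hc s hs
  have h := mem_N.2 hw
  unfold K
  rcases cs u hu with rfl | rfl | rfl | rfl | rfl
  · omega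
  · omega
  all_goals simp only [M₁, M₂, M₃, mem_singleton, notMem_empty] at h
  all_goals rw [h]; omega

theorem Th.big (h : Th G a x₁ x₂ x₃ b) (ih : IH tp G) (h5 : 5 ≤ dg G a) :
    Star tp G ∧ Mai tp G := by
  have ne := h.nes
  refine h.red ih {x₁, x₂, x₃} (by simp) (by simp) (by simp) (by grind) fun c hc s hs => ?_
  have Na := h.cut.1 a (by simp [ne])
  have h1 := (sg_ge (fun w hw => (hc.2.1 a w hw).1) (hc.2.2.2 a) {x₁}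
    (by simpa [Na, mem_N] using h.e₀)).1
  rw [← hs a (by rw [K, dg_congr Na]; omega), dg_congr Na, sum_singleton, card_singleton,
    hc.1] at h1
  obtain ⟨k, l, hk, hl, f⟩ := fill (c x₁ a) (c x₃ b) (s a) (s b) (Or.inl (by omega))
  refine ⟨ed x₁ x₂ k fun _ _ => l, ed_symm fun _ _ => rfl, ed_rng hk fun _ _ => hl, ?_⟩
  generalize hg : gl {x₁, x₂, x₃} _ c = g
  have ⟨_, s₁, q₁⟩ := loc2 (c := g) h.N₁ ne.1.2.1
  have ⟨_, s₂, q₂⟩ := loc2 (c := g) h.N₂ h.ne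
  have ⟨_, s₃, q₃⟩ := loc2 (c := g) h.symm.N₁ ne.1.2.2.2.2.1
  have e : (g x₁ a = c x₁ a ∧ g x₁ x₂ = k) ∧ (g x₂ x₁ = k ∧ g x₂ x₃ = l) ∧
      g x₃ b = c x₃ b ∧ g x₃ x₂ = l := by
    subst hg
    simp [gl, ed, ne]
  simp only [mem_insert, mem_singleton, forall_eq_or_imp, forall_eq, ← mem_N, h.N₁, h.N₂,
    h.symm.N₁, q₁, q₂, q₃, s₁, s₂, s₃, e, true_or, or_true, if_true, or_self, if_false, ne]
  refine ⟨⟨?_, ?_, ?_⟩, ⟨?_, ?_, ?_⟩, ?_, ?_, ?_⟩ <;> omega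

/-- The remaining neighbours of an end of the thread. -/
theorem Th.rest (h : Th G a x₁ x₂ x₃ b) (ab : G.Adj a b) : ∃ S, N G a = insert b (insert x₁ S) ∧
    #S + 2 = dg G a ∧ ∀ w ∈ S, w ∉ ({a, b, x₁, x₂, x₃} : Finset V) := by
  have ne := h.nes
  have h1 : x₁ ∈ (N G a).erase b := mem_erase.2 ⟨ne.2.1.2.2.2.1, mem_N.2 h.e₀⟩
  refine ⟨((N G a).erase b).erase x₁, by rw [insert_erase h1, insert_erase (mem_N.2 ab)], ?_,
    fun w hw => ?_⟩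
  · rw [card_erase_of_mem h1, card_erase_of_mem (mem_N.2 ab), ← dg]
    have := h.da
    omega
  · simp only [mem_erase, mem_N] at hw
    have h2 : w = x₂ → a ∈ N G x₂ := fun e => mem_N.2 (e ▸ hw.2.2.symm)
    have h3 : w = x₃ → a ∈ N G x₃ := fun e => mem_N.2 (e ▸ hw.2.2.symm)
    rw [h.N₂] at h2
    rw [h.symm.N₁] at h3
    have := hw.2.2.ne
    have := ab.ne
    grind

/-- New colours on the five-cycle. -/
theorem Th.ext (h : Th G a x₁ x₂ x₃ b) (ab : G.Adj a b) {S T : Finset V}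
    (Na : N G a = insert b (insert x₁ S)) (Nb : N G b = insert a (insert x₃ T))
    (hS : ∀ w ∈ S, w ∉ ({a, b, x₁, x₂, x₃} : Finset V))
    (hT : ∀ w ∈ T, w ∉ ({a, b, x₁, x₂, x₃} : Finset V)) (c : V → V → ℕ) (s : V → ℕ)
    {e c₀ c₃ : ℕ} (he : 1 ≤ e ∧ e ≤ 4) (h₀ : 1 ≤ c₀ ∧ c₀ ≤ 4) (h₃ : 1 ≤ c₃ ∧ c₃ ≤ 4)
    (qa : ∀ g, g a b = e → g a x₁ = c₀ → (∀ w ∈ S, g a w = c a w) → QM G g a)
    (qb : ∀ g, g b a = e → g b x₃ = c₃ → (∀ w ∈ T, g b w = c b w) → QM G g b)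
    (ha : ∀ w ∈ S, e + ∑ w ∈ S, c a w + c₀ ≠ s w) (hb : ∀ w ∈ T, e + ∑ w ∈ T, c b w + c₃ ≠ s w)
    (hab : e + ∑ w ∈ S, c a w + c₀ ≠ e + ∑ w ∈ T, c b w + c₃)
    (h5 : 5 ≤ e + ∑ w ∈ S, c a w ∨ 5 ≤ e + ∑ w ∈ T, c b w) : Ext G {a, b, x₁, x₂, x₃} c s := by
  have ne := h.nes
  have n := And.intro ab.ne ab.ne'
  obtain ⟨k, l, hk, hl, f⟩ := fill c₀ c₃ (e + ∑ w ∈ S, c a w + c₀) (e + ∑ w ∈ T, c b w + c₃)
    (by omega)
  refine ⟨ed a b e (ed a x₁ c₀ (ed b x₃ c₃ (ed x₁ x₂ k fun _ _ => l))),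
    ed_symm (ed_symm (ed_symm (ed_symm fun _ _ => rfl))),
    ed_rng he (ed_rng h₀ (ed_rng h₃ (ed_rng hk fun _ _ => hl))), ?_⟩
  generalize hg : gl {a, b, x₁, x₂, x₃} _ c = g
  have ⟨_, s₁, q₁⟩ := loc2 (c := g) h.N₁ ne.1.2.1
  have ⟨_, s₂, q₂⟩ := loc2 (c := g) h.N₂ h.ne
  have ⟨_, s₃, q₃⟩ := loc2 (c := g) h.symm.N₁ ne.1.2.2.2.2.1
  have e' : (g a b = e ∧ g a x₁ = c₀) ∧ (g b a = e ∧ g b x₃ = c₃) ∧ (g x₁ a = c₀ ∧ g x₁ x₂ = k) ∧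
      (g x₂ x₁ = k ∧ g x₂ x₃ = l) ∧ g x₃ b = c₃ ∧ g x₃ x₂ = l := by
    subst hg
    simp [gl, ed, ne, n]
  have o : ∀ u w, w ∉ ({a, b, x₁, x₂, x₃} : Finset V) → g u w = c u w := fun u w hw =>
    hg ▸ if_neg fun h => hw h.2
  have sa : sg G g a = e + ∑ w ∈ S, c a w + c₀ := by
    rw [sg, Na, sum_insert (by grind), sum_insert (by grind), e'.1.1, e'.1.2,
      sum_congr rfl fun w hw => o a w (hS w hw)]
    ring
  have sb : sg G g b = e + ∑ w ∈ T, c b w + c₃ := by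
    rw [sg, Nb, sum_insert (by grind), sum_insert (by grind), e'.2.1.1, e'.2.1.2,
      sum_congr rfl fun w hw => o b w (hT w hw)]
    ring
  simp only [forall_mem_insert, ← mem_N, Na, Nb, h.N₁, h.N₂]
  simp only [mem_insert, mem_singleton, forall_eq, h.symm.N₁, forall_eq_or_imp, q₁, q₂,
    q₃, s₁, s₂, s₃, sa, sb, e', true_or, or_true, if_true]
  refine ⟨⟨qa g e'.1.1 e'.1.2 fun w hw => o a w (hS w hw), hab, by omega, fun w hw => ?_⟩,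
    ⟨qb g e'.2.1.1 e'.2.1.2 fun w hw => o b w (hT w hw), hab.symm, by omega, fun w hw => ?_⟩, ?_⟩
  · rw [if_neg (by simpa using hS w hw)]
    exact ha w hw
  · rw [if_neg (by simpa using hT w hw)]
    exact hb w hw
  refine ⟨⟨?_, ?_, ?_⟩, ⟨?_, ?_, ?_⟩, ?_, ?_, ?_⟩ <;> omega

/-- An end of degree three or four: at most one colour is excluded by the majority condition. -/
theorem endv {v y x : V} {T : Finset V} (Nv : N G v = insert y (insert x T)) (hyx : y ≠ x)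
    (hy : y ∉ T) (hx : x ∉ T) (hv : #T = 1 ∨ #T = 2) (c : V → ℕ) (s : V → ℕ) :
    ∃ q₁ q₂ : ℕ, (q₁ = 4 → q₂ = 4 → 8 ≤ ∑ w ∈ T, c w) ∧ ∀ e, ¬(q₁ = e ∧ q₂ = e) → ∃ k,
      (1 ≤ k ∧ k ≤ 4) ∧ (∀ w ∈ T, e + ∑ w ∈ T, c w + k ≠ s w) ∧
      ∀ g, g v y = e → g v x = k → (∀ w ∈ T, g v w = c w) → QM G g v := by
  rcases hv with hv | hv
  · obtain ⟨t, rfl⟩ := card_eq_one.1 hv
    refine ⟨0, 1, by omega, fun e _ => ?_⟩
    obtain ⟨k, hk, h1, h2, -⟩ := pick (e + c t) (s t) (e + c t + e) 0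
    refine ⟨k, hk, by simpa using h1, fun g e1 e2 _ => ?_⟩
    rw [(loc3 Nv hyx (by simpa using hy) (by simpa using hx)).2.2]
    omega
  · obtain ⟨t, u, htu, rfl⟩ := card_eq_two.1 hv
    refine ⟨c t, c u, by rw [sum_pair htu]; omega, fun e he => ?_⟩
    obtain ⟨k, hk, h1, h2, h3⟩ := pick (e + (c t + c u)) (s t) (s u)
      (e + (c t + c u) + if c t = c u then c t else e)
    simp only [mem_insert, mem_singleton, not_or] at hx hy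
    refine ⟨k, hk, by simpa [sum_pair htu] using ⟨h1, h2⟩, fun g e1 e2 e3 => ?_⟩
    rw [(loc4 Nv hyx hy.1 hy.2 hx.1 hx.2 htu).2.2, e1, e2, e3 t (by simp), e3 u (by simp)]
    refine ⟨?_, ?_, ?_, ?_⟩ <;> split_ifs at h3 <;> omega

theorem Th.three (h : Th G a x₁ x₂ x₃ b) (ih : IH tp G) (ab : G.Adj a b) (h3 : dg G a = 3)
    (h4 : dg G b ≤ 4) : Star tp G ∧ Mai tp G := by
  have ne := h.nes
  obtain ⟨S, Na, cS, hS⟩ := h.rest ab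
  obtain ⟨T, Nb, cT, hT'⟩ := h.symm.rest ab.symm
  have hT : ∀ w ∈ T, w ∉ ({a, b, x₁, x₂, x₃} : Finset V) := fun w hw => by
    have := hT' w hw
    grind
  obtain ⟨u, rfl⟩ := card_eq_one.1 (show #S = 1 by omega)
  refine h.red ih _ (by simp) (by simp) (by simp) subset_rfl fun c hc s _ => ?_
  have r := hc.2.1 a u (mem_N.1 (by rw [h.cut.1 a (by simp [ne]), Na]; simp))
  obtain ⟨q₁, q₂, hq, hk⟩ := endv Nb ne.1.2.2.1 (by grind) (by grind)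
    (by have := h.db; omega) (c b) s
  obtain ⟨e, he, h1, h2⟩ : ∃ e, (1 ≤ e ∧ e ≤ 4) ∧ ¬(q₁ = e ∧ q₂ = e) ∧
      (5 ≤ e + c a u ∨ 5 ≤ e + ∑ w ∈ T, c b w) := by
    by_cases h : q₁ = 4 ∧ q₂ = 4
    exacts [⟨1, by omega, by omega, by have := hq h.1 h.2; omega⟩, ⟨4, by omega, h, by omega⟩]
  obtain ⟨c₃, h₃, hb, qb⟩ := hk e h1
  obtain ⟨c₀, h₀, f1, f2, f3⟩ := pick (e + c a u) (s u) (e + ∑ w ∈ T, c b w + c₃) (e + c a u + e)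
  refine h.ext ab Na Nb hS hT c s he h₀ h₃ (fun g e1 e2 _ => ?_) qb (by simpa using f1) hb
    (by simpa using f2) (by simpa using h2)
  have := hS u (by simp)
  rw [(loc3 Na ne.1.2.2.2.1 (by grind) (by grind)).2.2]
  omega

/-- Four consecutive vertices of degree two. -/
def H4 (G : SimpleGraph V) : Prop :=
  ∃ y₁ y₂ y₃ y₄, dg G y₁ = 2 ∧ dg G y₂ = 2 ∧ dg G y₃ = 2 ∧ dg G y₄ = 2 ∧ G.Adj y₁ y₂ ∧
    G.Adj y₂ y₃ ∧ G.Adj y₃ y₄ ∧ y₁ ≠ y₃ ∧ y₂ ≠ y₄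

/-- A closed set of five vertices of degree two has no small closed subset. -/
theorem C5s.sub {Y Z : Finset V} (hY : C5s G Y) (h : Z ⊆ Y) (hZ : ∀ v ∈ Z, N G v ⊆ Z) {z : V}
    (hz : z ∈ Z) (h4 : #Z ≤ 4) : False := by
  have h1 : insert z (N G z) ⊆ Z := insert_subset hz (hZ z hz)
  have h2 := card_le_card h1
  rw [card_insert_of_notMem (fun h => (mem_N.1 h).ne rfl), ← dg, (hY.2 z (h hz)).1] at h2
  have h3 := card_sdiff_of_subset h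
  obtain ⟨y, hy⟩ := card_pos.1 (show 0 < #(Y \ Z) by have := hY.1; omega)
  have h5 : insert y (N G y) ⊆ Y \ Z := insert_subset hy fun w hw =>
    mem_sdiff.2 ⟨(hY.2 y (mem_sdiff.1 hy).1).2 hw, fun hw' =>
      (mem_sdiff.1 hy).2 (hZ w hw' (mem_N.2 (mem_N.1 hw).symm))⟩
  have h6 := card_le_card h5
  rw [card_insert_of_notMem (fun h => (mem_N.1 h).ne rfl), ← dg,
    (hY.2 y (mem_sdiff.1 hy).1).1] at h6
  have := hY.1
  omega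

/-- A path with four vertices that avoids a given vertex. -/
theorem C5s.path {Y : Finset V} (hY : C5s G Y) (ha : a ∈ Y) : ∃ y₁ ∈ Y, ∃ y₂ ∈ Y, ∃ y₃ ∈ Y,
    ∃ y₄ ∈ Y, (y₁ ≠ a ∧ y₂ ≠ a ∧ y₃ ≠ a ∧ y₄ ≠ a) ∧ G.Adj y₁ y₂ ∧ G.Adj y₂ y₃ ∧ G.Adj y₃ y₄ ∧
      y₁ ≠ y₃ ∧ y₂ ≠ y₄ := by
  have nx : ∀ u ∈ Y, ∀ v, ∃ w ∈ Y, w ≠ v ∧ G.Adj u w := fun u hu v => by
    obtain ⟨w, h1, h2⟩ := other (hY.2 u hu).1 v
    exact ⟨w, (hY.2 u hu).2 (mem_N.2 h2), h1, h2⟩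
  have d := fun u hu => (hY.2 u hu).1
  obtain ⟨y₁, m₁, -, e₁⟩ := nx a ha a
  obtain ⟨y₂, m₂, n₂, e₂⟩ := nx y₁ m₁ a
  obtain ⟨y₃, m₃, n₃, e₃⟩ := nx y₂ m₂ y₁
  obtain ⟨y₄, m₄, n₄, e₄⟩ := nx y₃ m₃ y₂
  have N₁ := N2 (d _ m₁) e₁.symm e₂ n₂.symm
  have N₂ := N2 (d _ m₂) e₂.symm e₃ n₃.symm
  have N₃ := N2 (d _ m₃) e₃.symm e₄ n₄.symm
  refine ⟨y₁, m₁, y₂, m₂, y₃, m₃, y₄, m₄, ⟨e₁.ne', n₂, ?_, ?_⟩, e₂, e₃, e₄, n₃.symm, n₄.symm⟩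
  · rintro rfl
    have N₀ := N2 (d _ m₃) e₁ e₃.symm e₂.ne
    exact hY.sub (Z := {y₃, y₁, y₂}) (by grind) (by grind) (mem_insert_self _ _)
      (card_le_three.trans (by norm_num))
  · rintro rfl
    have N₀ := N2 (d _ m₄) e₁ e₄.symm n₃.symm
    exact hY.sub (Z := {y₄, y₁, y₂, y₃}) (by grind) (by grind) (mem_insert_self _ _) card_le_four

theorem Th.four (h : Th G a x₁ x₂ x₃ b) (ih : IH tp G) (ab : G.Adj a b) (h3 : dg G a = 4)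
    (h4 : dg G b = 4) (h5 : ¬H4 G) : Star tp G ∧ Mai tp G := by
  have ne := h.nes
  have n := And.intro ab.ne ab.ne'
  obtain ⟨S, Na, cS, hS⟩ := h.rest ab
  obtain ⟨T, Nb, cT, hT'⟩ := h.symm.rest ab.symm
  have hT : ∀ w ∈ T, w ∉ ({a, b, x₁, x₂, x₃} : Finset V) := fun w hw => by
    have := hT' w hw
    grind
  obtain ⟨u, v, huv, rfl⟩ := card_eq_two.1 (show #S = 2 by omega)
  have hu := hS u (by simp)
  have hv := hS v (by simp)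
  have hN := fun w => N_md (G := G) (W := {a, b, x₁, x₂, x₃}) (p := b) (q := x₃) (v := w)
    (by simp) (by simp)
  generalize hG : md G {a, b, x₁, x₂, x₃} b x₃ = G' at hN
  have M : N G' a = {u, v} ∧ N G' b = insert x₃ T ∧ N G' x₁ = ∅ ∧ N G' x₂ = ∅ ∧
      N G' x₃ = {b} := by
    subst hG
    refine ⟨?_, ?_, ?_, ?_, ?_⟩ <;> ext w <;> simp only [mem_N, md_adj] <;>
      simp only [← mem_N, Na, Nb, h.N₁, h.N₂, h.symm.N₁] <;> grind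
  have D : dg G' a = 2 ∧ dg G' b = 3 ∧ dg G' x₁ = 0 ∧ dg G' x₂ = 0 ∧ dg G' x₃ = 1 := by
    simp only [dg, M, card_pair huv, card_empty, card_singleton, and_self, and_true, true_and]
    rw [card_insert_of_notMem (by grind)]
    omega
  obtain ⟨-, -, d₁, d₂, d₃, -⟩ := id h
  refine reduce ih G' {a, b, x₁, x₂, x₃} (by simp [K, h3, h4, d₁, d₂, d₃]) hN
    (by simp [D, h3, h4, d₁, d₂, d₃]) ⟨a, by simp, by omega⟩ (fun _ _ _ => Or.inr trivial)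
    (fun w hw w' hw' => ?_) (fun _ Y hY w hw hwY => ?_) fun c hc s _ _ => ?_
  · have h' := mem_N.2 hw'
    simp only [mem_insert, mem_singleton] at hw
    unfold K
    rcases hw with rfl | rfl | rfl | rfl | rfl
    · omega
    · omega
    all_goals simp only [M, mem_singleton, notMem_empty] at h'
    rw [h']
    omega
  · have o : ∀ y ∈ Y, y ≠ a → N G' y = N G y := fun y hy hya =>
      hN y (by have := (hY.2 y hy).1; grind)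
    have d : ∀ y ∈ Y, y ≠ a → dg G y = 2 := fun y hy hya =>
      (dg_congr (o y hy hya)).symm.trans (hY.2 y hy).1
    have e : ∀ y ∈ Y, y ≠ a → ∀ y', G'.Adj y y' → G.Adj y y' := fun y hy hya y' h =>
      mem_N.1 (o y hy hya ▸ mem_N.2 h)
    obtain ⟨y₁, m₁, y₂, m₂, y₃, m₃, y₄, m₄, ⟨n₁, n₂, n₃, n₄⟩, e₁, e₂, e₃, f⟩ :=
      hY.path (a := a) (by have := (hY.2 w hwY).1; grind)
    exact h5 ⟨y₁, y₂, y₃, y₄, d _ m₁ n₁, d _ m₂ n₂, d _ m₃ n₃, d _ m₄ n₄, e _ m₁ n₁ _ e₁,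
      e _ m₂ n₂ _ e₂, e _ m₃ n₃ _ e₃, f⟩
  have r1 := hc.2.1 a u (mem_N.1 (by simp [M]))
  have r2 := hc.2.1 a v (mem_N.1 (by simp [M]))
  have r3 := (loc2 M.1 huv).2.2.1 (hc.2.2.2 a)
  obtain ⟨q₁, q₂, -, hk⟩ := endv Nb ne.1.2.2.1 (by grind) (by grind) (by omega) (c b) s
  obtain ⟨e, he, h1⟩ := pick 0 (c a u) (c a v) q₁
  obtain ⟨c₃, h₃, hb, qb⟩ := hk e (by omega)
  obtain ⟨c₀, h₀, f1, f2, f3⟩ := pick (e + (c a u + c a v)) (s u) (s v) (e + ∑ w ∈ T, c b w + c₃)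
  refine h.ext ab Na Nb hS hT c s he h₀ h₃ (fun g e1 e2 e3 => ?_) qb
    (by simpa [sum_pair huv] using ⟨f1, f2⟩) hb (by rwa [sum_pair huv])
    (by rw [sum_pair huv]; omega)
  rw [(loc4 Na ne.1.2.2.2.1 (by grind) (by grind) (by grind) (by grind) huv).2.2, e1, e2,
    e3 u (by simp), e3 v (by simp)]
  refine ⟨?_, ?_, ?_, ?_⟩ <;> omega

theorem Th.adj (h : Th G a x₁ x₂ x₃ b) (ih : IH tp G) (ab : G.Adj a b) (h5 : ¬H4 G) :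
    Star tp G ∧ Mai tp G := by
  have := h.da
  have := h.db
  by_cases h1 : 5 ≤ dg G a
  · exact h.big ih h1
  by_cases h2 : 5 ≤ dg G b
  · exact h.symm.big ih h2
  by_cases h3 : dg G a = 3
  · exact h.three ih ab h3 (by omega)
  by_cases h4 : dg G b = 3
  · exact h.symm.three ih ab.symm h4 (by omega)
  exact h.four ih ab (by omega) (by omega) h5

/-- A vertex of degree two with a neighbour that is not a leaf has no leaf as a neighbour. -/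
theorem no_leaf (h2 : TwoK G) {x y : V} (dx : dg G x = 2) (ky : K G y) (hy : y ≠ x)
    (ha : G.Adj x a) : K G a := by
  have h := h2 {x} x y (mem_singleton_self _) (by simpa using hy) dx.ge ky
  rw [cut, sum_singleton] at h
  have e : (N (core G) x).filter (fun w => w ∉ ({x} : Finset V)) = N G x :=
    eq_of_subset_of_card_le (fun w hw => mem_N.2 (mem_N.1 (mem_filter.1 hw).1).1)
      (by rw [← dg, dx]; exact h)
  have h' := mem_N.2 ha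
  rw [← e, mem_filter, mem_N] at h'
  exact h'.1.2.2

/-- Three consecutive vertices of degree two are reducible. -/
theorem thr_of (cyc : SCyc) (l5 : SL5) (t4 : ST4) (t3 : ST3) (ih : IH tp G) (h2 : TwoK G)
    (d₁ : dg G x₁ = 2) (d₂ : dg G x₂ = 2) (d₃ : dg G x₃ = 2) (e₁ : G.Adj x₁ x₂)
    (e₂ : G.Adj x₂ x₃) (ne : x₁ ≠ x₃) : Star tp G ∧ Mai tp G := by
  by_cases hc : H47.Con G
  swap
  · exact ⟨fun _ _ _ _ _ _ h => absurd h hc, fun _ _ h => absurd h hc⟩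
  by_cases hd : ∀ v, dg G v = 0 ∨ dg G v = 2
  · refine ⟨fun _ z _ _ _ _ _ _ hz => ?_, fun _ _ _ _ _ => cyc V G hc hd⟩
    have := hd z
    rw [dg, hz, card_singleton] at this
    omega
  push Not at hd
  obtain ⟨v, v0, v2⟩ := hd
  by_cases h4 : H4 G
  · obtain ⟨y₁, y₂, y₃, y₄, f₁, f₂, f₃, f₄, g₁, g₂, g₃, n₁, n₂⟩ := h4
    obtain ⟨a, na, ea⟩ := other f₁ y₂
    obtain ⟨b, nb, eb⟩ := other f₄ y₃
    have ka : 2 ≤ dg G a := no_leaf h2 f₁ f₂.ge g₁.ne' ea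
    have kb : 2 ≤ dg G b := no_leaf h2 f₄ f₃.ge g₃.ne eb
    by_cases ha : dg G a = 2
    · exact l5 V G a y₁ y₂ y₃ y₄ v ih hc ha f₁ f₂ f₃ f₄ ea.symm g₁ g₂ g₃ na n₁ n₂ v0 v2
    by_cases hb : dg G b = 2
    · exact l5 V G y₁ y₂ y₃ y₄ b v ih hc f₁ f₂ f₃ f₄ hb g₁ g₂ g₃ eb n₁ n₂ nb.symm v0 v2
    exact t4 V G a y₁ y₂ y₃ y₄ b ih (by omega) (by omega) f₁ f₂ f₃ f₄ ea.symm g₁ g₂ g₃ eb n₁ n₂
  obtain ⟨a, na, ea⟩ := other d₁ x₂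
  obtain ⟨b, nb, eb⟩ := other d₃ x₂
  have ka : 2 ≤ dg G a := no_leaf h2 d₁ d₂.ge e₁.ne' ea
  have kb : 2 ≤ dg G b := no_leaf h2 d₃ d₂.ge e₂.ne eb
  have ha : dg G a ≠ 2 := fun h => h4 ⟨a, x₁, x₂, x₃, h, d₁, d₂, d₃, ea.symm, e₁, e₂, na, ne⟩
  have hb : dg G b ≠ 2 := fun h => h4 ⟨x₁, x₂, x₃, b, d₁, d₂, d₃, h, e₁, e₂, eb, ne, nb.symm⟩
  by_cases ab : G.Adj a b
  · exact Th.adj ⟨by omega, by omega, d₁, d₂, d₃, ea.symm, e₁, e₂, eb, ne⟩ ih ab h4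
  · exact t3 V G a x₁ x₂ x₃ b ih (by omega) (by omega) d₁ d₂ d₃ ea.symm e₁ e₂ eb ne ab

end

end Pool.Agent.MP_d1f1f3_co.H33
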