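import Pool.Agent.MP_d1f1f3_co.H33.Stm

/-!
Cycles: the cyclic enumeration and the colouring.
-/

namespace Pool.Agent.MP_d1f1f3_co.H33

open Finset Pool.Agent.MP_d1f1f3_co.H47 Pool.Agent.MP_d1f1f3_co.H47.Red

namespace CycX

/-- The cyclic successor. -/
def Nx (m a b : ℕ) : Prop := (b = a + 1 ∧ a + 1 < m) ∨ (b = 0 ∧ a + 1 = m)

theorem nx_val {n : ℕ} (i : ZMod (n + 3)) : Nx (n + 3) i.val (i + 1).val := by
  have : Fact (1 < n + 3) := ⟨by omega⟩
  have h := ZMod.val_lt i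
  rw [ZMod.val_add, ZMod.val_one]
  rcases Nat.lt_or_ge (i.val + 1) (n + 3) with h1 | h1
  · exact Or.inl ⟨Nat.mod_eq_of_lt h1, h1⟩
  · have h2 : i.val + 1 = n + 3 := by omega
    exact Or.inr ⟨by rw [h2, Nat.mod_self], h2⟩

theorem two_ne {n : ℕ} (i : ZMod (n + 3)) : i + 1 + 1 ≠ i := fun h => by
  have h1 := nx_val i
  have h2 := nx_val (i + 1)
  rw [h] at h2
  unfold Nx at h1 h2
  omega

/-- Blocks of four colours, then blocks of three colours. -/
def col (m k : ℕ) : ℕ := if k < 4 * (m % 3) then k % 4 + 1 else (k - 4 * (m % 3)) % 3 + 1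

theorem col_rng (m k : ℕ) : 1 ≤ col m k ∧ col m k ≤ 4 := by
  unfold col
  split_ifs <;> omega

theorem col_one {m a b : ℕ} (h3 : 3 ≤ m) (h5 : m ≠ 5) (h : Nx m a b) : col m a ≠ col m b := by
  unfold col
  rcases h with ⟨rfl, h⟩ | ⟨rfl, h⟩ <;> split_ifs <;> omega

theorem col_two {m a b c : ℕ} (h3 : 3 ≤ m) (h : Nx m a b) (h' : Nx m b c) :
    col m a ≠ col m c := by
  unfold col
  rcases h with ⟨rfl, h⟩ | ⟨rfl, h⟩ <;> rcases h' with ⟨rfl, h'⟩ | ⟨rfl, h'⟩ <;> split_ifs <;> omega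

end CycX

open CycX
open scoped Classical

theorem enum : SEnum := by
  intro V _ G v hc hd hv
  have hcy : G.IsCycles := fun u hu => by
    obtain ⟨w, hw⟩ := hu
    have e : G.neighborSet u = ↑(N G u) := Set.ext fun x => by
      rw [mem_coe, mem_N]
      rfl
    have := one_le_dg (show G.Adj u w from hw)
    rw [e, Set.ncard_coe_finset]
    exact (hd u).resolve_left (by omega)
  obtain ⟨w, -, hw⟩ := other hv v
  obtain ⟨p, hp, -⟩ := hcy.exists_cycle_toSubgraph_verts_eq_connectedComponentSupp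
    (c := G.connectedComponentMk v) (v := v) rfl ⟨w, hw⟩
  obtain ⟨n, hn⟩ : ∃ n, p.length = n + 3 := ⟨p.length - 3, by have := hp.three_le_length; omega⟩
  let f : ZMod (n + 3) → V := fun i => p.getVert i.val
  have inj : Function.Injective f := fun i j h => ZMod.val_injective _
    (hp.getVert_injOn' (show i.val ≤ p.length - 1 by have := ZMod.val_lt i; omega)
      (show j.val ≤ p.length - 1 by have := ZMod.val_lt j; omega) h)
  have adj : ∀ i, G.Adj (f i) (f (i + 1)) := fun i => by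
    have h0 := p.adj_getVert_succ (i := i.val) ((ZMod.val_lt i).trans_eq hn.symm)
    show G.Adj (p.getVert i.val) (p.getVert (i + 1).val)
    rcases nx_val i with ⟨h1, -⟩ | ⟨h1, h2⟩
    · rwa [h1]
    · rw [h1, p.getVert_zero]
      rwa [h2.trans hn.symm, p.getVert_length] at h0
  have hN : ∀ i, N G (f i) = {f (i - 1), f (i + 1)} := fun i => by
    have h1 := one_le_dg (adj i)
    have h2 := (adj (i - 1)).symm
    rw [sub_add_cancel] at h2
    refine N2 ((hd _).resolve_left (by omega)) h2 (adj i) fun h => two_ne (i - 1) ?_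
    rw [sub_add_cancel]
    exact (inj h).symm
  refine ⟨n, f, inj, hN, fun x hx => ?_⟩
  have := closed hc (Y := univ.image f) (u := f 0) (w := x) (fun u hu => by
    obtain ⟨i, -, rfl⟩ := mem_image.1 hu
    rw [hN]
    simp [insert_subset_iff]) (mem_image_of_mem f (mem_univ _)) (one_le_dg (adj 0)) (by omega)
  simpa using this

theorem cyc : SCyc := by
  intro V _ G hc hd h5
  by_cases hv : ∃ v, dg G v = 2
  swap
  · have h0 : ∀ v, dg G v = 0 := fun v => (hd v).resolve_right fun h => hv ⟨v, h⟩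
    have h1 : ∀ u w, ¬G.Adj u w := fun u w h => by
      have := one_le_dg h
      have := h0 u
      omega
    exact ⟨fun _ _ => 0, fun _ _ => rfl, fun u w h => absurd h (h1 u w),
      fun u w h => absurd h (h1 u w), fun u α =>
        (card_filter_le _ _).trans ((h0 u).le.trans (Nat.zero_le _))⟩
  obtain ⟨v, hv⟩ := hv
  obtain ⟨n, f, inj, hN, sur⟩ := enum V G v hc hd hv
  have ne : ∀ i, f i ≠ f (i + 1 + 1) := fun i h => two_ne i (inj h).symm
  have hN' : ∀ i, N G (f (i + 1)) = {f i, f (i + 1 + 1)} := fun i => by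
    rw [hN, add_sub_cancel_right]
  have m5 : n + 3 ≠ 5 := fun h => h5 ⟨hd, by
    have e : (univ.filter fun v => dg G v = 2) = univ.image f := by
      ext x
      simp only [mem_filter, mem_univ, true_and, mem_image]
      refine ⟨sur x, ?_⟩
      rintro ⟨i, rfl⟩
      obtain ⟨j, rfl⟩ : ∃ j, i = j + 1 := ⟨i - 1, (sub_add_cancel i 1).symm⟩
      exact (loc2 (c := fun _ _ => 0) (hN' j) (ne j)).1
    rw [e, card_image_of_injective _ inj, card_univ, ZMod.card, h]⟩
  let k : ZMod (n + 3) → ℕ := fun i => col (n + 3) i.val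
  have k1 : ∀ i, k i ≠ k (i + 1) := fun i => col_one (by omega) m5 (nx_val i)
  have k2 : ∀ i, k i ≠ k (i + 1 + 1) := fun i => col_two (by omega) (nx_val i) (nx_val (i + 1))
  let c : V → V → ℕ := fun u w =>
    ∑ i, if (u = f i ∧ w = f (i + 1)) ∨ (w = f i ∧ u = f (i + 1)) then k i else 0
  have sy : ∀ u w, c u w = c w u := fun u w => sum_congr rfl fun i _ => if_congr or_comm rfl rfl
  have ev : ∀ i, c (f i) (f (i + 1)) = k i := fun i => by
    refine (sum_eq_single i (fun j _ hj => if_neg ?_) fun h => absurd (mem_univ i) h).trans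
      (if_pos (Or.inl ⟨rfl, rfl⟩))
    rintro (⟨h, -⟩ | ⟨h, h'⟩)
    · exact hj (inj h).symm
    · exact two_ne j (by rw [← inj h', inj h])
  have hs : ∀ i, sg G c (f (i + 1)) = k i + k (i + 1) ∧ QM G c (f (i + 1)) := fun i => by
    obtain ⟨-, a, b⟩ := loc2 (c := c) (hN' i) (ne i)
    rw [sy _ (f i), ev, ev] at a b
    exact ⟨a, b.2 (k1 i)⟩
  have ad : ∀ u w, G.Adj u w →
      ∃ i, (u = f (i + 1) ∧ w = f (i + 1 + 1)) ∨ (w = f (i + 1) ∧ u = f (i + 1 + 1)) := by
    intro u w h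
    have h1 := one_le_dg h
    obtain ⟨i, rfl⟩ := sur u ((hd u).resolve_left (by omega))
    obtain ⟨j, rfl⟩ : ∃ j, i = j + 1 + 1 := ⟨i - 1 - 1, by ring⟩
    have h2 := mem_N.2 h
    rw [hN', mem_insert, mem_singleton] at h2
    rcases h2 with rfl | rfl
    exacts [⟨j, Or.inr ⟨rfl, rfl⟩⟩, ⟨j + 1, Or.inl ⟨rfl, rfl⟩⟩]
  have df : ∀ i, sg G c (f (i + 1)) ≠ sg G c (f (i + 1 + 1)) := fun i => by
    rw [(hs i).1, (hs (i + 1)).1]
    have := k2 i
    omega
  refine ⟨c, sy, fun u w h => ?_, fun u w h => ?_, fun u α => ?_⟩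
  · obtain ⟨i, ⟨rfl, rfl⟩ | ⟨rfl, rfl⟩⟩ := ad u w h
    · rw [ev]
      exact col_rng _ _
    · rw [sy, ev]
      exact col_rng _ _
  · obtain ⟨i, ⟨rfl, rfl⟩ | ⟨rfl, rfl⟩⟩ := ad u w h
    exacts [df i, (df i).symm]
  · rcases hd u with h | h
    · exact (card_filter_le _ _).trans (h.le.trans (Nat.zero_le _))
    · obtain ⟨i, rfl⟩ := sur u h
      obtain ⟨j, rfl⟩ : ∃ j, i = j + 1 := ⟨i - 1, (sub_add_cancel i 1).symm⟩
      exact (hs j).2 α

end Pool.Agent.MP_d1f1f3_co.H33
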