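import Pool.Agent.MP_d1f1f3_co.H33.Stm

/-!
The statement in the words of the problem.
-/

namespace Pool.Agent.MP_d1f1f3_co.H33

open Finset Pool.Agent.MP_d1f1f3_co.H47 Pool.Agent.MP_d1f1f3_co.H47.Red

theorem Fin2.cyc : ∀ i j : Fin 5,
    (j = i - 1 ∨ j = i + 1) ↔ (SimpleGraph.cycleGraph 5).Adj i j := by decide

open scoped Classical

theorem fin2 (h : SEnum) : SFin2 := by
  intro p hM V _ _ G _ hc h2 h5 hd
  obtain ⟨G', hG⟩ : ∃ G' : SimpleGraph (Option V), ∀ x y,
      G'.Adj x y ↔ ∃ u w, G.Adj u w ∧ some u = x ∧ some w = y :=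
    ⟨G.map Function.Embedding.some, SimpleGraph.map_adj _ G⟩
  have hN : ∀ u, N G' (some u) = (G.neighborFinset u).map Function.Embedding.some := fun u => by
    ext (_ | w) <;> simp [N, hG]
  have h0 : dg G' none = 0 := by simp [dg, N, hG]
  have hdg : ∀ u, dg G' (some u) = G.degree u := fun u => by
    rw [dg, hN, card_map, SimpleGraph.card_neighborFinset_eq_degree]
  have hadj : ∀ u w, G'.Adj (some u) (some w) ↔ G.Adj u w := fun u w => by simp [hG]
  have hb : ∀ (S : Set V) u w, u ∈ S → w ∉ S → ∃ a b, G.Adj a b ∧ a ∈ S ∧ b ∉ S := by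
    intro S u w hu hw
    obtain ⟨q⟩ := hc.preconnected u w
    obtain ⟨d, -, h⟩ := q.exists_boundary_dart S hu hw
    exact ⟨_, _, d.adj, h⟩
  have hcon : H47.Con G' := fun X u w hu hw du dw => by
    rcases u with _ | u
    · omega
    rcases w with _ | w
    · omega
    obtain ⟨a, b, hab, ha, hb⟩ := hb {x | some x ∈ X} u w hu hw
    unfold cut
    refine le_trans ?_ (single_le_sum (fun _ _ => Nat.zero_le _) (show some a ∈ X from ha))
    refine card_pos.2 ⟨some b, ?_⟩
    simp only [N, mem_filter, mem_univ, true_and]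
    exact ⟨(hadj a b).2 hab, hb⟩
  have hn5 : ¬IsC5 G' := by
    rintro ⟨h02, hc5⟩
    obtain ⟨v, hv⟩ := card_pos.1 (show 0 < #(univ.filter fun v => dg G' v = 2) by omega)
    obtain ⟨n, f, f1, f2, f3⟩ := h (Option V) G' v hcon h02 (mem_filter.1 hv).2
    have f6 : ∀ i w, G'.Adj (f i) w ↔ w = f (i - 1) ∨ w = f (i + 1) := fun i w => by
      rw [← mem_N, f2]
      simp
    have f4 : ∀ i, dg G' (f i) = 2 := fun i => by
      have := one_le_dg ((f6 i _).2 (Or.inr rfl))
      have := h02 (f i)
      omega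
    have hn : n + 3 = 5 := by
      rw [← hc5, ← ZMod.card (n + 3), ← card_univ]
      refine card_bij (fun i _ => f i) (fun i _ => mem_filter.2 ⟨mem_univ _, f4 i⟩)
        (fun i _ j _ e => f1 e) fun w hw => ?_
      obtain ⟨i, hi⟩ := f3 w (mem_filter.1 hw).2
      exact ⟨i, mem_univ _, hi⟩
    obtain rfl : n = 2 := by omega
    have f5 : ∀ i, ∃ u, some u = f i := fun i => by
      have := f4 i
      rcases e : f i with _ | u
      · rw [e] at this
        omega
      · exact ⟨u, rfl⟩
    choose g hg using f5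
    have g1 : Function.Injective g := fun i j e => f1 (by rw [← hg, ← hg, e])
    have g2 : Function.Surjective g := fun w => by
      have hw : dg G' (some w) = 2 := by
        by_contra hw
        obtain ⟨a, b, hab, -, hb'⟩ := hb {u | dg G' (some u) = 2} (g 0) w
          (show dg G' (some (g 0)) = 2 by rw [hg]; exact f4 0) hw
        have := one_le_dg ((hadj a b).2 hab).symm
        have := h02 (some b)
        exact hb' (show dg G' (some b) = 2 by omega)
      obtain ⟨i, hi⟩ := f3 _ hw
      exact ⟨i, Option.some_injective _ ((hg i).trans hi)⟩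
    refine h5.false (RelIso.symm ⟨Equiv.ofBijective (α := Fin 5) g ⟨g1, g2⟩, fun {i j} => ?_⟩)
    refine Iff.trans ?_ (Fin2.cyc i j)
    show G.Adj (g i) (g j) ↔ _
    rw [← hadj, hg, hg, f6]
    exact or_congr f1.eq_iff f1.eq_iff
  obtain ⟨c, hs, h1, h3, h4⟩ := hM (Option V) G' none h0 hcon
    (fun v => by
    rcases v with _ | v
    · omega
    · rw [hdg]
      exact hd v) (by
    intro x y hxy
    obtain ⟨u, w, huw, rfl, rfl⟩ := (hG x y).1 hxy
    by_contra h
    change ¬(2 ≤ dg G' (some u) ∨ 2 ≤ dg G' (some w)) at h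
    rw [hdg, hdg] at h
    have key : ∀ a a' b, G.Adj a a' → G.Adj a b → b ≠ a' → 2 ≤ G.degree a := fun a a' b h1 h2 h3 =>
      one_lt_card.2 ⟨b, (G.mem_neighborFinset _ _).2 h2, a', (G.mem_neighborFinset _ _).2 h1, h3⟩
    refine h2 ?_
    rw [← card_univ, ← card_pair huw.ne]
    refine congrArg _ (eq_univ_of_forall fun x => ?_).symm
    by_contra hx
    obtain ⟨a, b, hab, ha, hb⟩ := hb {u, w} u x (by simp) (by simpa using hx)
    rw [Set.mem_insert_iff, Set.mem_singleton_iff, not_or] at hb
    rcases ha with rfl | rfl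
    · exact h (Or.inl (key _ _ _ huw hab hb.2))
    · exact h (Or.inr (key _ _ _ huw.symm hab hb.1))) hn5
  refine ⟨Sym2.lift ⟨fun u w => c (some u) (some w), fun u w => hs _ _⟩, fun e he => ?_,
    fun u w h => ?_, fun u α => ?_⟩
  · induction e using Sym2.ind with
    | h u w => exact h1 _ _ ((hadj u w).2 he)
  · have := h3 _ _ ((hadj u w).2 h)
    rwa [sg, sg, hN, hN, sum_map, sum_map] at this
  · have := h4 (some u) α
    rw [hdg, hN, filter_map, card_map] at this
    refine le_trans (card_le_card fun x hx => ?_) this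
    simpa using hx

end Pool.Agent.MP_d1f1f3_co.H33
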