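import Pool.Agent.MP_d1f1f3_co.H33.Stm

/-!
Four pairwise adjacent vertices of degree four with a common neighbour.
-/

namespace Pool.Agent.MP_d1f1f3_co.H33

open Finset Pool.Agent.MP_d1f1f3_co.H47 Pool.Agent.MP_d1f1f3_co.H47.Red

namespace K5

/-- No colour three times among four. -/
abbrev Q4 (a b c d : ℕ) : Prop :=
  ¬(a = b ∧ a = c) ∧ ¬(a = b ∧ a = d) ∧ ¬(a = c ∧ a = d) ∧ ¬(b = c ∧ b = d)

/-- A colour. -/
abbrev R (a : ℕ) : Prop := 1 ≤ a ∧ a ≤ 4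

/-- The local conditions. -/
abbrev Ok (p q r s u v w x y z : ℕ) : Prop :=
  (R u ∧ R v ∧ R w ∧ R x ∧ R y ∧ R z) ∧ (Q4 u v w p ∧ Q4 u x y q ∧ Q4 v x z r ∧ Q4 w y z s) ∧
    u + v + w + p ≠ u + x + y + q ∧ u + v + w + p ≠ v + x + z + r ∧
    u + v + w + p ≠ w + y + z + s ∧ u + x + y + q ≠ v + x + z + r ∧
    u + x + y + q ≠ w + y + z + s ∧ v + x + z + r ≠ w + y + z + s

/-- The forbidden sum. -/
abbrev Av (S p q r s u v w x y z : ℕ) : Prop :=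
  u + v + w + p ≠ S ∧ u + x + y + q ≠ S ∧ v + x + z + r ≠ S ∧ w + y + z + s ≠ S

/-- The colourings that are tried. -/
def L : List (ℕ × ℕ × ℕ × ℕ × ℕ × ℕ) :=
  [(1, 2, 3, 3, 2, 4), (2, 1, 1, 3, 4, 2), (1, 4, 3, 3, 2, 4), (1, 3, 4, 4, 2, 3), (2, 4, 1, 4,
    3, 2), (3, 2, 4, 1, 4, 3), (3, 1, 2, 2, 4, 2), (2, 4, 3, 1, 1, 2), (2, 3, 1, 4, 1, 2), (2,
    4, 3, 3, 1, 3), (4, 1, 2, 3, 1, 2), (4, 4, 3, 3, 2, 1), (2, 1, 4, 1, 3, 2), (4, 3, 1, 4, 3,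
    2), (2, 3, 1, 4, 1, 3), (3, 1, 2, 4, 4, 3), (3, 3, 1, 4, 3, 2), (2, 1, 2, 1, 4, 4), (2, 4,
    3, 3, 1, 4), (1, 2, 1, 3, 2, 4), (1, 2, 4, 2, 3, 1), (3, 4, 1, 4, 2, 2), (3, 4, 2, 3, 4, 1)]

set_option synthInstance.maxSize 2000 in
theorem fin (p q r s S : ℕ) (hp : R p) (hq : R q) (hr : R r) (hs : R s) :
    ∃ u v w x y z : ℕ, Ok p q r s u v w x y z ∧ Av S p q r s u v w x y z := by
  have key : ∀ p ∈ Icc 1 4, ∀ q ∈ Icc 1 4, ∀ r ∈ Icc 1 4, ∀ s ∈ Icc 1 4, ∀ S ∈ range 18,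
      ∃ e ∈ L, Av S p q r s e.1 e.2.1 e.2.2.1 e.2.2.2.1 e.2.2.2.2.1 e.2.2.2.2.2 ∧
        Ok p q r s e.1 e.2.1 e.2.2.1 e.2.2.2.1 e.2.2.2.2.1 e.2.2.2.2.2 := by decide +kernel
  obtain ⟨⟨u, v, w, x, y, z⟩, -, ⟨h1, h2, h3, h4⟩, h⟩ := key p (mem_Icc.2 hp) q (mem_Icc.2 hq) r
    (mem_Icc.2 hr) s (mem_Icc.2 hs) (min S 17) (by simp)
  refine ⟨u, v, w, x, y, z, h, ?_⟩
  obtain ⟨⟨⟨-, a1⟩, ⟨-, a2⟩, ⟨-, a3⟩, ⟨-, a4⟩, ⟨-, a5⟩, -, a6⟩, -⟩ := h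
  have := hp.2
  have := hq.2
  have := hr.2
  have := hs.2
  dsimp only at *
  exact ⟨by omega, by omega, by omega, by omega⟩

end K5

open scoped Classical

theorem k5h : SK5 := by
  intro V _ p G a b c d x ih da db dc dd ab ac ad bc bd cd ax bx cx dx
  have ne : (a ≠ b ∧ a ≠ c ∧ a ≠ d ∧ b ≠ c ∧ b ≠ d ∧ c ≠ d ∧ a ≠ x ∧ b ≠ x ∧ c ≠ x ∧ d ≠ x) ∧
      b ≠ a ∧ c ≠ a ∧ d ≠ a ∧ c ≠ b ∧ d ≠ b ∧ d ≠ c ∧ x ≠ a ∧ x ≠ b ∧ x ≠ c ∧ x ≠ d :=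
    ⟨⟨ab.ne, ac.ne, ad.ne, bc.ne, bd.ne, cd.ne, ax.ne, bx.ne, cx.ne, dx.ne⟩, ab.ne', ac.ne', ad.ne',
      bc.ne', bd.ne', cd.ne', ax.ne', bx.ne', cx.ne', dx.ne'⟩
  have Na := N4 da ab ac ad ax bc.ne bd.ne bx.ne cd.ne cx.ne dx.ne
  have Nb := N4 db ab.symm bc bd bx ac.ne ad.ne ax.ne cd.ne cx.ne dx.ne
  have Nc := N4 dc ac.symm bc.symm cd cx ab.ne ad.ne ax.ne bd.ne bx.ne dx.ne
  have Nd := N4 dd ad.symm bd.symm cd.symm dx ab.ne ac.ne ax.ne bc.ne bx.ne cx.ne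
  have hN := fun u => N_md (G := G) (W := {a, b, c, d}) (p := a) (q := a) (v := u) (by simp)
    (by simp)
  have M : ∀ u ∈ ({a, b, c, d} : Finset V), N (md G {a, b, c, d} a a) u = {x} ∧ dg G u = 4 := by
    intro u hu
    simp only [mem_insert, mem_singleton] at hu
    rcases hu with rfl | rfl | rfl | rfl <;> refine ⟨?_, ‹_›⟩ <;> ext w <;>
      simp only [mem_N, md_adj] <;> simp only [← mem_N, Na, Nb, Nc, Nd] <;> grind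
  have D : ∀ u ∈ ({a, b, c, d} : Finset V), dg (md G {a, b, c, d} a a) u = 1 := fun u hu => by
    rw [dg, (M u hu).1, card_singleton]
  have ks : 2 ≤ dg (md G {a, b, c, d} a a) x := by
    rw [dg, hN x (by simp [ne]), ← card_pair ab.ne]
    exact card_le_card (by simp [insert_subset_iff, mem_N, ax.symm, bx.symm])
  refine reduce ih (md G {a, b, c, d} a a) {a, b, c, d} (fun u hu => by rw [K, (M u hu).2]; omega)
    hN (fun u hu => by rw [D u hu, (M u hu).2]; omega) ⟨a, by simp, by rw [D a (by simp)]; omega⟩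
    (fun _ u hu => Or.inl (D u hu).le) (fun u hu w hw => Or.inr ?_)
    (fun _ Y hY u hu h => by have := (hY.2 u h).1; have := D u hu; omega) fun f hc t _ _ => ?_
  · have := mem_N.2 hw
    rw [(M u hu).1, mem_singleton] at this
    rwa [this, K]
  have r : ∀ u ∈ ({a, b, c, d} : Finset V), 1 ≤ f u x ∧ f u x ≤ 4 := fun u hu =>
    hc.2.1 u x (mem_N.1 (by rw [(M u hu).1]; simp))
  obtain ⟨u, v, w, y, z, s, ⟨⟨r1, r2, r3, r4, r5, r6⟩, ⟨q1, q2, q3, q4⟩, h1, h2, h3, h4, h5, h6⟩,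
    h7, h8, h9, h10⟩ := K5.fin (f a x) (f b x) (f c x) (f d x) (t x) (r a (by simp)) (r b (by simp))
    (r c (by simp)) (r d (by simp))
  refine ⟨ed a b u (ed a c v (ed a d w (ed b c y (ed b d z (ed c d s fun _ _ => 1))))),
    ed_symm (ed_symm (ed_symm (ed_symm (ed_symm (ed_symm fun _ _ => rfl))))),
    ed_rng r1 (ed_rng r2 (ed_rng r3 (ed_rng r4 (ed_rng r5 (ed_rng r6 (by simp)))))), ?_⟩
  generalize hg : gl {a, b, c, d} _ f = g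
  have ⟨_, sa, qa⟩ := loc4 (c := g) Na bc.ne bd.ne bx.ne cd.ne cx.ne dx.ne
  have ⟨_, sb, qb⟩ := loc4 (c := g) Nb ac.ne ad.ne ax.ne cd.ne cx.ne dx.ne
  have ⟨_, sc, qc⟩ := loc4 (c := g) Nc ab.ne ad.ne ax.ne bd.ne bx.ne dx.ne
  have ⟨_, sd, qd⟩ := loc4 (c := g) Nd ab.ne ac.ne ax.ne bc.ne bx.ne cx.ne
  have e : (g a b = u ∧ g a c = v ∧ g a d = w ∧ g a x = f a x) ∧
      (g b a = u ∧ g b c = y ∧ g b d = z ∧ g b x = f b x) ∧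
      (g c a = v ∧ g c b = y ∧ g c d = s ∧ g c x = f c x) ∧
      g d a = w ∧ g d b = z ∧ g d c = s ∧ g d x = f d x := by
    subst hg
    simp [gl, ed, ne]
  simp only [mem_insert, mem_singleton, forall_eq_or_imp, forall_eq, ← mem_N, Na, Nb, Nc, Nd, qa,
    qb, qc, qd, sa, sb, sc, sd, e, true_or, or_true, if_true, or_self, if_false, ne]
  exact ⟨⟨q1, h1, h2, h3, h7⟩, ⟨q2, h1.symm, h4, h5, h8⟩, ⟨q3, h2.symm, h4.symm, h6, h9⟩, q4,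
    h3.symm, h5.symm, h6.symm, h10⟩

end Pool.Agent.MP_d1f1f3_co.H33
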