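import Pool.Agent.MP_d1f1f3_co.H33.Stm

/-!
Five consecutive vertices of degree two.
-/

namespace Pool.Agent.MP_d1f1f3_co.H33

open Finset Pool.Agent.MP_d1f1f3_co.H47 Pool.Agent.MP_d1f1f3_co.H47.Red
open scoped Classical

theorem l5 : SL5 := by
  intro V _ G x₁ x₂ x₃ x₄ x₅ v ih hc d1 d2 d3 d4 d5 a12 a23 a34 a45 n13 n24 n35 v0 v2
  obtain ⟨a, na, aa⟩ := other d1 x₂
  obtain ⟨b, nb, ab⟩ := other d5 x₄
  have A1 := N2 d1 aa a12 na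
  have A2 := N2 d2 a12.symm a23 n13
  have A3 := N2 d3 a23.symm a34 n24
  have A4 := N2 d4 a34.symm a45 n35
  have A5 := N2 d5 a45.symm ab nb.symm
  obtain ⟨W, hW⟩ : ∃ W : Finset V, W = {x₁, x₂, x₃, x₄, x₅} := ⟨_, rfl⟩
  have mW : ∀ u, u ∈ W ↔ u = x₁ ∨ u = x₂ ∨ u = x₃ ∨ u = x₄ ∨ u = x₅ := by simp [hW]
  have dW : ∀ u ∈ W, dg G u = 2 := by
    intro u hu
    rcases (mW u).1 hu with rfl | rfl | rfl | rfl | rfl <;> assumption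
  have no : ∀ Y : Finset V, (∀ u ∈ Y, u ∉ W → dg G u = 2 ∧ N G u ⊆ Y) → a ∈ W ∪ Y → b ∉ W ∪ Y := by
    intro Y h ha hb
    have k : ∀ u ∈ W ∪ Y, dg G u = 2 ∧ N G u ⊆ W ∪ Y := fun u hu => by
      by_cases hu' : u ∈ W
      · refine ⟨dW u hu', ?_⟩
        rcases (mW u).1 hu' with rfl | rfl | rfl | rfl | rfl <;>
          simp only [A1, A2, A3, A4, A5, insert_subset_iff, singleton_subset_iff, ha, hb] <;>
          simp [mW]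
      · have := h u ((mem_union.1 hu).resolve_left hu') hu'
        exact ⟨this.1, this.2.trans subset_union_right⟩
    exact v2 (k v (closed hc (fun u hu => (k u hu).2) (u := x₃) (by simp [mW]) (by omega)
      (by omega))).1
  have B : ∀ {x p q : V}, N G x = {p, q} → ∀ w, G.Adj x w ↔ w = p ∨ w = q := fun h w => by
    rw [← mem_N, h]
    simp
  have ne : ((a ≠ x₁ ∧ a ≠ x₂ ∧ a ≠ x₃ ∧ a ≠ x₄ ∧ a ≠ x₅) ∧
      b ≠ x₁ ∧ b ≠ x₂ ∧ b ≠ x₃ ∧ b ≠ x₄ ∧ b ≠ x₅) ∧ (x₁ ≠ x₂ ∧ x₁ ≠ x₃ ∧ x₁ ≠ x₄ ∧ x₁ ≠ x₅) ∧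
      (x₂ ≠ x₃ ∧ x₂ ≠ x₄ ∧ x₂ ≠ x₅) ∧ (x₃ ≠ x₄ ∧ x₃ ≠ x₅) ∧ x₄ ≠ x₅ := by
    have h0 := no ∅ (by simp)
    simp only [union_empty, mW] at h0
    have := B A1
    have := B A2
    have := B A3
    have := B A4
    have := B A5
    have := aa.symm
    have := ab.symm
    have := a12.symm
    have := a45.symm
    have := aa.ne
    have := ab.ne
    have := a12.ne
    have := a23.ne
    have := a34.ne
    have := a45.ne
    have := a23.symm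
    have := a34.symm
    grind
  obtain ⟨⟨⟨p1, p2, p3, p4, p5⟩, q1, q2, q3, q4, q5⟩, ⟨n12, -, n14, n15⟩, ⟨n23, -, n25⟩,
    ⟨n34, -⟩, n45⟩ := ne
  have aW : a ∉ W := by simp [*]
  have bW : b ∉ W := by simp [*]
  have w1 : x₁ ∈ W := by simp [mW]
  have w5 : x₅ ∈ W := by simp [mW]
  obtain ⟨G', hG⟩ : ∃ G', G' = md G W x₁ x₅ := ⟨_, rfl⟩
  have hN : ∀ u, u ∉ W → N G' u = N G u := fun u hu => hG ▸ N_md w1 w5 hu
  have M : N G' x₁ = {a, x₅} ∧ N G' x₅ = {x₁, b} ∧ N G' x₂ = ∅ ∧ N G' x₃ = ∅ ∧ N G' x₄ = ∅ := by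
    subst hG
    refine ⟨?_, ?_, ?_, ?_, ?_⟩ <;> ext w <;>
      simp only [mem_N, md_adj, B A1, B A2, B A3, B A4, B A5, mW] <;> grind
  obtain ⟨M1, M5, M2, M3, M4⟩ := M
  have D1 : dg G' x₁ = 2 := by rw [dg, M1, card_pair p5]
  have D5 : dg G' x₅ = 2 := by rw [dg, M5, card_pair q1.symm]
  have D : ∀ u ∈ W, u = x₁ ∨ u = x₅ ∨ dg G' u = 0 := by
    intro u hu
    rcases (mW u).1 hu with rfl | rfl | rfl | rfl | rfl <;> simp [dg, M2, M3, M4]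
  refine reduce ih G' W (fun u hu => (dW u hu).ge) hN (fun u hu => ?_)
    ⟨x₃, by simp [mW], by simp [dg, M3, A3]⟩ (fun _ _ _ => Or.inr trivial) (fun u hu w hw => ?_)
    (fun _ Y hY u hu h => ?_) fun c hc t _ ht => ?_
  · rw [dW u hu]
    rcases D u hu with rfl | rfl | h <;> omega
  · have := one_le_dg hw
    rcases D u hu with rfl | rfl | h
    exacts [Or.inl D1.ge, Or.inl D5.ge, by omega]
  · have h1 : x₁ ∈ Y ∧ x₅ ∈ Y := by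
      have k := hY.2 u h
      rcases D u hu with rfl | rfl | h'
      exacts [⟨h, k.2 (by simp [M1])⟩, ⟨k.2 (by simp [M5]), h⟩, by omega]
    refine no Y (fun y hy hy' => ?_) (mem_union_right _ ((hY.2 _ h1.1).2 (by simp [M1])))
      (mem_union_right _ ((hY.2 _ h1.2).2 (by simp [M5])))
    rw [← dg_congr (hN y hy'), ← hN y hy']
    exact hY.2 y hy
  have ⟨_, s1, r1⟩ := loc2 (c := c) M1 p5
  have ⟨_, s5, r5⟩ := loc2 (c := c) M5 q1.symm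
  have e15 : G'.Adj x₁ x₅ := mem_N.1 (by simp [M1])
  have ef := r1.1 (hc.2.2.2 x₁)
  have fg := r5.1 (hc.2.2.2 x₅)
  have eg := hc.2.2.1 _ _ e15
  have o1 := ht x₁ w1 a aW aa
  have o5 := ht x₅ w5 b bW ab
  rw [s1] at eg o1
  rw [s5] at eg o5
  rw [hc.1 x₅ x₁] at fg eg o5
  have he := hc.2.1 x₁ a (mem_N.1 (by simp [M1]))
  have hg := hc.2.1 x₅ b (mem_N.1 (by simp [M5]))
  have hf := hc.2.1 _ _ e15
  refine ⟨ed x₂ x₃ (c x₅ b) (ed x₃ x₄ (c x₁ a) fun _ _ => c x₁ x₅),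
    ed_symm (ed_symm fun _ _ => rfl), ed_rng hg (ed_rng he fun _ _ => hf), ?_⟩
  generalize hg' : gl W _ c = g
  have ⟨_, t1, u1⟩ := loc2 (c := g) A1 na
  have ⟨_, t2, u2⟩ := loc2 (c := g) A2 n13
  have ⟨_, t3, u3⟩ := loc2 (c := g) A3 n24
  have ⟨_, t4, u4⟩ := loc2 (c := g) A4 n35
  have ⟨_, t5, u5⟩ := loc2 (c := g) A5 nb.symm
  have e : (g x₁ a = c x₁ a ∧ g x₁ x₂ = c x₁ x₅) ∧ (g x₂ x₁ = c x₁ x₅ ∧ g x₂ x₃ = c x₅ b) ∧
      (g x₃ x₂ = c x₅ b ∧ g x₃ x₄ = c x₁ a) ∧ (g x₄ x₃ = c x₁ a ∧ g x₄ x₅ = c x₁ x₅) ∧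
      g x₅ x₄ = c x₁ x₅ ∧ g x₅ b = c x₅ b := by
    subst hg'
    simp only [gl, ed, mW]
    grind
  intro u hu
  rcases (mW u).1 hu with rfl | rfl | rfl | rfl | rfl <;>
    simp only [B A1, B A2, B A3, B A4, B A5, forall_eq_or_imp, forall_eq, u1, u2, u3, u4, u5, aW, bW,
      if_false] <;>
    simp only [mW, true_or, or_true, if_true, t1, t2, t3, t4, t5, e] <;> omega

end Pool.Agent.MP_d1f1f3_co.H33
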