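import Pool.Agent.MP_d1f1f3_co.H33.Stm

/-!
Stars.
-/

namespace Pool.Agent.MP_d1f1f3_co.H33

open Finset Pool.Agent.MP_d1f1f3_co.H47 Pool.Agent.MP_d1f1f3_co.H47.Red
open scoped Classical

theorem star1 : SStar := by
  intro V _ p G r hr h z ρ γ τ _ hc _ hz kρ g1 g4
  obtain rfl := hr ρ kρ
  have k : 2 ≤ #(N G ρ) := kρ
  have hE : ∀ u w, G.Adj u w → u = ρ ∨ w = ρ := fun u w h =>
    (K_end hc kρ u w h).imp (hr u) (hr w)
  obtain ⟨T, t1, t2, t3⟩ := exists_subsuperset_card_eq (n := (#(N G ρ) + 1) / 2)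
    (singleton_subset_iff.2 (mem_N.2 (mem_N.1 (hz ▸ mem_singleton_self ρ)).symm))
    (by rw [card_singleton]; omega) (by omega)
  have cU : #(N G ρ \ T) = #(N G ρ) / 2 := by
    rw [card_sdiff_of_subset t2]
    omega
  obtain ⟨A, a1, a2, a3⟩ : ∃ A, (1 ≤ A ∧ A ≤ 4) ∧ A ≠ γ ∧ #(N G ρ \ T) * A + #T * γ ≠ τ := by
    by_contra h
    push Not at h
    have h1 := h 1
    have h2 := h 2
    have h3 := h 3
    omega
  obtain ⟨f, hf⟩ : ∃ f : V → ℕ, ∀ w, f w = if w ∈ T then γ else A := ⟨_, fun _ => rfl⟩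
  obtain ⟨c, e1, e2⟩ : ∃ c : V → V → ℕ, (∀ w, c ρ w = f w) ∧ ∀ u w, c u w = c w u :=
    ⟨fun u w => if u = ρ then f w else if w = ρ then f u else 1, fun w => if_pos rfl,
      fun u w => by by_cases h : u = ρ <;> by_cases h' : w = ρ <;> simp [h, h']⟩
  have rf : ∀ w, 1 ≤ c ρ w ∧ c ρ w ≤ 4 := fun w => by
    rw [e1, hf]
    split_ifs
    exacts [⟨g1, g4⟩, a1]
  have lf : ∀ w, G.Adj ρ w → N G w = {ρ} := fun w h => eq_singleton_iff_unique_mem.2
    ⟨mem_N.2 h.symm, fun x hx => (hE w x (mem_N.1 hx)).resolve_left h.ne'⟩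
  have df : ∀ w, G.Adj ρ w → sg G c w ≠ sg G c ρ := fun w h => by
    rw [(loc1 (lf w h)).2.1, e2]
    exact (lt_sg (fun x _ => (rf x).1) kρ h).ne
  refine ⟨c, ⟨e2, fun u w h => ?_, fun u w h => ?_, fun u α => ?_⟩, fun _ => ⟨?_, ?_⟩⟩
  · rcases hE u w h with rfl | rfl
    exacts [rf w, e2 u w ▸ rf u]
  · rcases hE u w h with rfl | rfl
    exacts [(df w h).symm, df u h.symm]
  · by_cases hu : u = ρ
    · subst hu
      rw [dg]
      by_cases hα : α = γ
      · refine t3 ▸ card_le_card fun w hw => by_contra fun hT => a2 ?_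
        have := (mem_filter.1 hw).2
        rwa [e1, hf, if_neg hT, hα] at this
      · refine (card_le_card (t := N G u \ T) fun w hw =>
          mem_sdiff.2 ⟨(mem_filter.1 hw).1, fun hT => hα ?_⟩).trans (by omega)
        have := (mem_filter.1 hw).2
        rwa [e1, hf, if_pos hT, eq_comm] at this
    · have : ¬ 2 ≤ dg G u := fun k => hu (hr u k)
      refine (card_filter_le _ _).trans ?_
      rw [← dg]
      omega
  · rw [e2, e1, hf, if_pos (t1 (mem_singleton_self z))]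
  · rwa [sg, ← sum_sdiff t2,
      sum_congr rfl fun w hw => by rw [e1, hf, if_neg (mem_sdiff.1 hw).2],
      sum_congr (s₁ := T) rfl fun w hw => by rw [e1, hf, if_pos hw], sum_const, sum_const]

end Pool.Agent.MP_d1f1f3_co.H33
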