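import Pool.Agent.MP_d1f1f3_co.H33.Stm

/-!
A thread with three inner vertices whose ends are not adjacent is reducible.
-/

namespace Pool.Agent.MP_d1f1f3_co.H33

open Finset Pool.Agent.MP_d1f1f3_co.H47 Pool.Agent.MP_d1f1f3_co.H47.Red

theorem t3_fin (p q S : ℕ) (hp : 1 ≤ p ∧ p ≤ 4) (hq : 1 ≤ q ∧ q ≤ 4) :
    ∃ a b : ℕ, (1 ≤ a ∧ a ≤ 4) ∧ (1 ≤ b ∧ b ≤ 4) ∧ a ≠ b ∧ a ≠ p ∧ a ≠ q ∧ b ≠ p ∧ b ≠ q ∧
      p + a ≠ S ∧ b + q ≠ S := by
  have key : ∀ p ∈ Icc 1 4, ∀ q ∈ Icc 1 4, ∀ S ∈ range 10, ∃ a ∈ Icc 1 4, ∃ b ∈ Icc 1 4,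
      a ≠ b ∧ a ≠ p ∧ a ≠ q ∧ b ≠ p ∧ b ≠ q ∧ p + a ≠ S ∧ b + q ≠ S := by decide +kernel
  obtain ⟨a, ha, b, hb, h1, h2, h3, h4, h5, h6, h7⟩ :=
    key p (mem_Icc.2 hp) q (mem_Icc.2 hq) (min S 9) (by simp)
  rw [mem_Icc] at ha hb
  exact ⟨a, b, ha, hb, h1, h2, h3, h4, h5, by omega, by omega⟩

open scoped Classical

noncomputable section

variable {V : Type} [Fintype V]

/-- Both ends are the same vertex. -/
theorem t3_eq {G : SimpleGraph V} {a x y v : V} (ih : IH tp G) (da : 3 ≤ dg G a)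
    (dx : dg G x = 2) (dy : dg G y = 2) (dv : dg G v = 2) (ax : G.Adj a x) (xy : G.Adj x y)
    (yv : G.Adj y v) (va : G.Adj v a) (xv : x ≠ v) : Star tp G ∧ Mai tp G := by
  have ay : a ≠ y := fun e => by rw [e] at da; omega
  have ne : (x ≠ y ∧ x ≠ v ∧ y ≠ v ∧ x ≠ a ∧ y ≠ a ∧ v ≠ a) ∧
      y ≠ x ∧ v ≠ x ∧ v ≠ y ∧ a ≠ x ∧ a ≠ y ∧ a ≠ v :=
    ⟨⟨xy.ne, xv, yv.ne, ax.ne', ay.symm, va.ne⟩, xy.ne', xv.symm, yv.ne', ax.ne, ay, va.ne'⟩
  have Nx := N2 dx ax.symm xy ay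
  have Ny := N2 dy xy.symm yv xv
  have Nv := N2 dv yv.symm va ay.symm
  have hN := fun u => N_md (G := G) (W := {x, y, v}) (p := x) (q := x) (v := u) (by simp) (by simp)
  have M : ∀ u ∈ ({x, y, v} : Finset V), N (md G {x, y, v} x x) u ⊆ {a} ∧ dg G u = 2 := by
    intro u hu
    simp only [mem_insert, mem_singleton] at hu
    rcases hu with rfl | rfl | rfl <;> refine ⟨fun w => ?_, ‹_›⟩ <;>
      simp only [mem_N, md_adj] <;> simp only [← mem_N, Nx, Ny, Nv] <;> grind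
  have D : ∀ u ∈ ({x, y, v} : Finset V), dg (md G {x, y, v} x x) u ≤ 1 := fun u hu =>
    card_le_card (M u hu).1
  have aW : a ∉ ({x, y, v} : Finset V) := by simp [ne]
  have ka : K (md G {x, y, v} x x) a := by
    rw [K, dg_congr (hN a aW)]
    omega
  refine reduce ih (md G {x, y, v} x x) {x, y, v} (fun u hu => (M u hu).2.ge) hN
    (fun u hu => by have := D u hu; have := (M u hu).2; omega)
    ⟨x, by simp, by have := D x (by simp); omega⟩
    (fun _ u hu => Or.inl (D u hu)) (fun u hu w hw => Or.inr ?_)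
    (fun _ Y hY u hu h => by have := (hY.2 u h).1; have := D u hu; omega) fun c hc t _ _ => ?_
  · rwa [mem_singleton.1 ((M u hu).1 (mem_N.2 hw))]
  have r : ∀ u, G.Adj u a → 1 ≤ c u a ∧ c u a ≤ 4 := fun u hu =>
    hc.2.1 u a (Or.inl ⟨hu, fun h => aW h.2⟩)
  obtain ⟨k, l, hk, hl, h1, h2, h3, h4, h5, h6, h7⟩ :=
    t3_fin (c x a) (c v a) (t a) (r x ax.symm) (r v va)
  refine ⟨ed x y k (ed y v l fun _ _ => 1), ed_symm (ed_symm fun _ _ => rfl),
    ed_rng hk (ed_rng hl (by simp)), ?_⟩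
  generalize hg : gl {x, y, v} _ c = g
  have ⟨_, sx, qx⟩ := loc2 (c := g) Nx ay
  have ⟨_, sy, qy⟩ := loc2 (c := g) Ny xv
  have ⟨_, sv, qv⟩ := loc2 (c := g) Nv ay.symm
  have e : (g x a = c x a ∧ g x y = k) ∧ (g y x = k ∧ g y v = l) ∧ g v y = l ∧ g v a = c v a := by
    subst hg
    simp [gl, ed, ne]
  simp only [mem_insert, mem_singleton, forall_eq_or_imp, forall_eq, ← mem_N, Nx, Ny, Nv, qx, qy,
    qv, sx, sy, sv, e, true_or, or_true, if_true, or_self, if_false, ne]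
  exact ⟨⟨h2.symm, h6, by omega⟩, ⟨h1, by omega, by omega⟩, h5, by omega, h7⟩

/-- The ends are different. -/
theorem t3_ne {G : SimpleGraph V} {a x y v b : V} (ih : IH tp G) (da : 3 ≤ dg G a)
    (db : 3 ≤ dg G b) (dx : dg G x = 2) (dy : dg G y = 2) (dv : dg G v = 2) (ax : G.Adj a x)
    (xy : G.Adj x y) (yv : G.Adj y v) (vb : G.Adj v b) (xv : x ≠ v) (ab : a ≠ b)
    (nab : ¬G.Adj a b) : Star tp G ∧ Mai tp G := by
  have ay : a ≠ y := fun e => by rw [e] at da; omega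
  have av : a ≠ v := fun e => by rw [e] at da; omega
  have bx : b ≠ x := fun e => by rw [e] at db; omega
  have by' : b ≠ y := fun e => by rw [e] at db; omega
  have ne : ((x ≠ y ∧ x ≠ v ∧ y ≠ v ∧ x ≠ a ∧ y ≠ a ∧ v ≠ a) ∧
      y ≠ x ∧ v ≠ x ∧ v ≠ y ∧ a ≠ x ∧ a ≠ y ∧ a ≠ v) ∧
      (x ≠ b ∧ y ≠ b ∧ v ≠ b ∧ a ≠ b) ∧ b ≠ x ∧ b ≠ y ∧ b ≠ v ∧ b ≠ a :=
    ⟨⟨⟨xy.ne, xv, yv.ne, ax.ne', ay.symm, av.symm⟩, xy.ne', xv.symm, yv.ne', ax.ne, ay, av⟩,
      ⟨bx.symm, by'.symm, vb.ne, ab⟩, bx, by', vb.ne', ab.symm⟩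
  have Nx := N2 dx ax.symm xy ay
  have Ny := N2 dy xy.symm yv xv
  have Nv := N2 dv yv.symm vb by'.symm
  have n1 : ∀ {u w : V}, u ∉ N G w → ¬G.Adj u w := fun h h' => h (mem_N.2 h'.symm)
  have na : ¬G.Adj a a ∧ ¬G.Adj a y ∧ ¬G.Adj a v ∧ ¬G.Adj a b :=
    ⟨G.irrefl, n1 (by simp [Ny, ne]), n1 (by simp [Nv, ne]), nab⟩
  have nb : ¬G.Adj b a ∧ ¬G.Adj b x ∧ ¬G.Adj b y ∧ ¬G.Adj b b :=
    ⟨fun h => nab h.symm, n1 (by simp [Nx, ne]), n1 (by simp [Ny, ne]), G.irrefl⟩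
  generalize hW : ({a, x, y, v, b} : Finset V) = W
  have mW : ∀ u, u ∈ W ↔ u = a ∨ u = x ∨ u = y ∨ u = v ∨ u = b := fun u => by
    simp only [← hW, mem_insert, mem_singleton]
  have aW : a ∈ W := by simp [mW]
  have bW : b ∈ W := by simp [mW]
  have oa : ∀ w ∈ (N G a).erase x, w ∉ W := fun w hw => by
    rw [mem_erase, mem_N] at hw
    rw [mW]
    grind
  have ob : ∀ w ∈ (N G b).erase v, w ∉ W := fun w hw => by
    rw [mem_erase, mem_N] at hw
    rw [mW]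
    grind
  have Na : N (md G W a b) a = insert b ((N G a).erase x) := by
    ext w
    simp only [mem_N, md_adj, mem_insert, mem_erase, mW]
    grind
  have Nb : N (md G W a b) b = insert a ((N G b).erase v) := by
    ext w
    simp only [mem_N, md_adj, mem_insert, mem_erase, mW]
    grind
  have sa := fun (c c' : V → V → ℕ) => swap (c := c) (c' := c')
    (insert_erase (mem_N.2 ax)).symm Na (notMem_erase _ _) fun h => oa b h bW
  have sb := fun (c c' : V → V → ℕ) => swap (c := c) (c' := c')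
    (insert_erase (mem_N.2 vb.symm)).symm Nb (notMem_erase _ _) fun h => ob a h aW
  have Da := (sa (fun _ _ => 0) (fun _ _ => 0) rfl fun _ _ => rfl).1
  have Db := (sb (fun _ _ => 0) (fun _ _ => 0) rfl fun _ _ => rfl).1
  have M : ∀ u, u = x ∨ u = y ∨ u = v → dg (md G W a b) u = 0 ∧ dg G u = 2 := by
    intro u hu
    rcases hu with rfl | rfl | rfl <;>
      refine ⟨card_eq_zero.2 (eq_empty_of_forall_notMem fun w => ?_), ‹_›⟩ <;>
      simp only [mem_N, md_adj, mW] <;> simp only [← mem_N, Nx, Ny, Nv] <;> grind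
  have D : ∀ u ∈ W, dg (md G W a b) u = 0 ∧ dg G u = 2 ∨
      dg (md G W a b) u = dg G u ∧ 3 ≤ dg G u := fun u hu => by
    rcases (mW u).1 hu with rfl | h | h | h | rfl
    exacts [Or.inr ⟨Da, da⟩, Or.inl (M u (by simp [h])), Or.inl (M u (by simp [h])),
      Or.inl (M u (by simp [h])), Or.inr ⟨Db, db⟩]
  refine reduce ih (md G W a b) W (fun u hu => by have := D u hu; rw [K]; omega)
    (fun u => N_md aW bW) (fun u hu => by have := D u hu; omega)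
    ⟨x, by simp [mW], by have := M x (by simp); omega⟩ (fun _ _ _ => Or.inr trivial)
    (fun u hu w hw => Or.inl (by have := D u hu; have := one_le_dg hw; rw [K]; omega))
    (fun _ Y hY u hu h => by have := (hY.2 u h).1; have := D u hu; omega) fun c hc t _ ht => ?_
  have r : 1 ≤ c a b ∧ c a b ≤ 4 := hc.2.1 a b (Or.inr ⟨ab, Or.inl ⟨rfl, rfl⟩⟩)
  obtain ⟨k, hk, h1, h2, -⟩ := pick (c a b) (c a b + c a b) (sg (md G W a b) c a) 0
  obtain ⟨l, hl, h3, h4, h5⟩ := pick (c a b) (c a b + c a b) (c a b + k) (sg (md G W a b) c b)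
  refine ⟨ed x y k (ed y v l fun _ _ => c a b), ed_symm (ed_symm fun _ _ => rfl),
    ed_rng hk (ed_rng hl fun _ _ => r), ?_⟩
  generalize hg : gl W _ c = g
  have ⟨_, sx, qx⟩ := loc2 (c := g) Nx ay
  have ⟨_, sy, qy⟩ := loc2 (c := g) Ny xv
  have ⟨_, sv, qv⟩ := loc2 (c := g) Nv by'.symm
  have e : (g x a = c a b ∧ g x y = k) ∧ (g y x = k ∧ g y v = l) ∧ (g v y = l ∧ g v b = c a b) ∧
      g a x = c a b ∧ g b v = c a b := by
    subst hg
    simp [gl, ed, ne, mW]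
  have o : ∀ u w, w ∉ W → g u w = c u w := fun u w hw => hg ▸ if_neg fun h => hw h.2
  obtain ⟨-, s1, q1⟩ := sa g c e.2.2.2.1 fun w hw => o a w (oa w hw)
  obtain ⟨-, s2, q2⟩ := sb g c (e.2.2.2.2.trans (hc.1 a b)) fun w hw => o b w (ob w hw)
  rw [e.1.1, e.1.2] at sx qx
  rw [e.2.1.1, e.2.1.2] at sy qy
  rw [e.2.2.1.1, e.2.2.1.2] at sv qv
  clear e hk hl r D M ne na nb sa sb
  intro u hu
  rcases (mW u).1 hu with rfl | rfl | rfl | rfl | rfl
  · refine ⟨q1 (hc.2.2.2 u), fun w hw => ?_⟩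
    by_cases h : w = x
    · rw [h, if_pos (by simp [mW]), s1, sx]
      exact h2.symm
    · have := oa w (mem_erase.2 ⟨h, mem_N.2 hw⟩)
      rw [if_neg this, s1]
      exact ht u hu w this hw
  · refine ⟨qx.2 (by omega), fun w hw => ?_⟩
    rw [← mem_N, Nx, mem_insert, mem_singleton] at hw
    rcases hw with rfl | rfl <;> rw [if_pos (by simp [mW])] <;> omega
  · refine ⟨qy.2 (by omega), fun w hw => ?_⟩
    rw [← mem_N, Ny, mem_insert, mem_singleton] at hw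
    rcases hw with rfl | rfl <;> rw [if_pos (by simp [mW])] <;> omega
  · refine ⟨qv.2 (by omega), fun w hw => ?_⟩
    rw [← mem_N, Nv, mem_insert, mem_singleton] at hw
    rcases hw with rfl | rfl <;> rw [if_pos (by simp [mW])] <;> omega
  · refine ⟨q2 (hc.2.2.2 u), fun w hw => ?_⟩
    by_cases h : w = v
    · rw [h, if_pos (by simp [mW]), s2, sv]
      omega
    · have := ob w (mem_erase.2 ⟨h, mem_N.2 hw⟩)
      rw [if_neg this, s2]
      exact ht u hu w this hw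

theorem t3 : ST3 := by
  intro V _ G a x y v b ih da db dx dy dv ax xy yv vb xv nab
  by_cases ab : a = b
  · subst ab
    exact t3_eq ih da dx dy dv ax xy yv vb xv
  · exact t3_ne ih da db dx dy dv ax xy yv vb xv ab nab

end

end Pool.Agent.MP_d1f1f3_co.H33
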