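import Pool.Agent.MP_d1f1f3_co.H33.Stm

/-!
A thread with four inner vertices is reducible.
-/

namespace Pool.Agent.MP_d1f1f3_co.H33

open Finset Pool.Agent.MP_d1f1f3_co.H47 Pool.Agent.MP_d1f1f3_co.H47.Red

namespace T4A

set_option synthInstance.maxSize 2000 in
theorem fin (p q S : ℕ) (hp : 1 ≤ p ∧ p ≤ 4) (hq : 1 ≤ q ∧ q ≤ 4) (h : p + q + 1 ≤ S) :
    ∃ a b c : ℕ, (1 ≤ a ∧ a ≤ 4) ∧ (1 ≤ b ∧ b ≤ 4) ∧ (1 ≤ c ∧ c ≤ 4) ∧ p ≠ a ∧ a ≠ b ∧ b ≠ c ∧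
      c ≠ q ∧ a ≠ c ∧ p ≠ b ∧ b ≠ q ∧ p + a ≠ S ∧ c + q ≠ S := by
  have key : ∀ p ∈ Icc 1 4, ∀ q ∈ Icc 1 4, ∀ S ∈ range 10, p + q + 1 ≤ S →
      ∃ a ∈ Icc 1 4, ∃ b ∈ Icc 1 4, ∃ c ∈ Icc 1 4, p ≠ a ∧ a ≠ b ∧ b ≠ c ∧
      c ≠ q ∧ a ≠ c ∧ p ≠ b ∧ b ≠ q ∧ p + a ≠ S ∧ c + q ≠ S := by decide +kernel
  obtain ⟨a, ha, b, hb, c, hc, h1, h2, h3, h4, h5, h6, h7, h8, h9⟩ := key p (mem_Icc.2 hp) q
    (mem_Icc.2 hq) (min S 9) (by simp) (by omega)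
  rw [mem_Icc] at ha hb hc
  exact ⟨a, b, c, ha, hb, hc, h1, h2, h3, h4, h5, h6, h7, by omega, by omega⟩

open scoped Classical

variable {V : Type} [Fintype V] {G : SimpleGraph V} {a x₁ x₂ x₃ x₄ b : V}

/-- The thread. -/
structure Th (G : SimpleGraph V) (a x₁ x₂ x₃ x₄ b : V) : Prop where
  da : 3 ≤ dg G a
  db : 3 ≤ dg G b
  N1 : N G x₁ = {a, x₂}
  N2 : N G x₂ = {x₁, x₃}
  N3 : N G x₃ = {x₂, x₄}
  N4 : N G x₄ = {x₃, b}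
  d : ∀ u ∈ ({x₁, x₂, x₃, x₄} : Finset V), dg G u = 2
  ne : (x₁ ≠ x₂ ∧ x₁ ≠ x₃ ∧ x₁ ≠ x₄ ∧ x₂ ≠ x₃ ∧ x₂ ≠ x₄ ∧ x₃ ≠ x₄) ∧
    (x₂ ≠ x₁ ∧ x₃ ≠ x₁ ∧ x₄ ≠ x₁ ∧ x₃ ≠ x₂ ∧ x₄ ≠ x₂ ∧ x₄ ≠ x₃) ∧
    (a ≠ x₁ ∧ a ≠ x₂ ∧ a ≠ x₃ ∧ a ≠ x₄ ∧ x₁ ≠ a ∧ x₂ ≠ a ∧ x₃ ≠ a ∧ x₄ ≠ a) ∧
    b ≠ x₁ ∧ b ≠ x₂ ∧ b ≠ x₃ ∧ b ≠ x₄ ∧ x₁ ≠ b ∧ x₂ ≠ b ∧ x₃ ≠ b ∧ x₄ ≠ b

theorem loop (ih : IH tp G) (T : Th G a x₁ x₂ x₃ x₄ a) : Star tp G ∧ Mai tp G := by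
  obtain ⟨da, -, N1, N2, N3, N4, d, ne⟩ := T
  have hN := fun u => N_md (G := G) (W := {x₁, x₂, x₃, x₄}) (p := x₁) (q := x₁) (v := u)
    (by simp) (by simp)
  have M : ∀ u ∈ ({x₁, x₂, x₃, x₄} : Finset V), N (md G {x₁, x₂, x₃, x₄} x₁ x₁) u ⊆ {a} := by
    intro u hu w
    simp only [mem_insert, mem_singleton] at hu
    rcases hu with rfl | rfl | rfl | rfl <;> simp only [mem_N, md_adj] <;>
      simp only [← mem_N, N1, N2, N3, N4] <;> grind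
  have D : ∀ u ∈ ({x₁, x₂, x₃, x₄} : Finset V), dg (md G {x₁, x₂, x₃, x₄} x₁ x₁) u ≤ 1 :=
    fun u hu => card_le_card (M u hu)
  have aW : a ∉ ({x₁, x₂, x₃, x₄} : Finset V) := by simp [ne]
  have ka : 3 ≤ dg (md G {x₁, x₂, x₃, x₄} x₁ x₁) a := by rwa [dg_congr (hN a aW)]
  have a1 : G.Adj x₁ a := mem_N.1 (by simp [N1])
  have a4 : G.Adj x₄ a := mem_N.1 (by simp [N4])
  have S : ({x₁, x₄} : Finset V) ⊆ N (md G {x₁, x₂, x₃, x₄} x₁ x₁) a := by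
    simp [hN a aW, insert_subset_iff, mem_N, a1.symm, a4.symm]
  refine reduce ih (md G {x₁, x₂, x₃, x₄} x₁ x₁) {x₁, x₂, x₃, x₄} (fun u hu => (d u hu).ge) hN
    (fun u hu => by have := D u hu; have := d u hu; omega)
    ⟨x₁, by simp, by have := D x₁ (by simp); have := d x₁ (by simp); omega⟩
    (fun _ u _ => Or.inr trivial) (fun u hu w hw => Or.inr ?_)
    (fun _ Y hY u hu h => by have := (hY.2 u h).1; have := D u hu; omega) fun c hc t ht _ => ?_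
  · rw [mem_singleton.1 (M u hu (mem_N.2 hw)), K]
    omega
  have r : ∀ u ∈ ({x₁, x₄} : Finset V), 1 ≤ c u a ∧ c u a ≤ 4 := fun u hu =>
    hc.2.1 u a (mem_N.1 (S hu)).symm
  obtain ⟨e₁, e₂, e₃, b1, b2, b3, h⟩ := fin (c x₁ a) (c x₄ a) (t a) (r x₁ (by simp))
    (r x₄ (by simp)) (by
      have h1 := (sg_ge (fun w hw => (hc.2.1 a w hw).1) (hc.2.2.2 a) {x₁, x₄} S).2
      rw [sum_pair ne.1.2.2.1, card_pair ne.1.2.2.1, hc.1 a, hc.1 a] at h1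
      rw [ht a (by rw [K]; omega)]
      omega)
  refine ⟨ed x₁ x₂ e₁ (ed x₂ x₃ e₂ (ed x₃ x₄ e₃ fun _ _ => 1)),
    ed_symm (ed_symm (ed_symm fun _ _ => rfl)), ed_rng b1 (ed_rng b2 (ed_rng b3 (by simp))), ?_⟩
  generalize hg : gl {x₁, x₂, x₃, x₄} _ c = g
  have ⟨_, s1, q1⟩ := loc2 (c := g) N1 ne.2.2.1.2.1
  have ⟨_, s2, q2⟩ := loc2 (c := g) N2 ne.1.2.1
  have ⟨_, s3, q3⟩ := loc2 (c := g) N3 ne.1.2.2.2.2.1
  have ⟨_, s4, q4⟩ := loc2 (c := g) N4 ne.2.2.1.2.2.1.symm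
  have e : (g x₁ a = c x₁ a ∧ g x₁ x₂ = e₁ ∧ g x₂ x₁ = e₁ ∧ g x₂ x₃ = e₂) ∧
      g x₃ x₂ = e₂ ∧ g x₃ x₄ = e₃ ∧ g x₄ x₃ = e₃ ∧ g x₄ a = c x₄ a := by
    subst hg
    simp [gl, ed, ne]
  simp only [mem_insert, mem_singleton, forall_eq_or_imp, forall_eq, ← mem_N, N1, N2, N3, N4, q1,
    q2, q3, q4, s1, s2, s3, s4, e, true_or, or_true, if_true, or_self, if_false, ne]
  obtain ⟨h1, h2, h3, h4, h5, h6, h7, h8, h9⟩ := h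
  exact ⟨⟨h1, h8, by omega⟩, ⟨h2, by omega, by omega⟩, ⟨h3, by omega, by omega⟩, h4, by omega, h9⟩

theorem path (ih : IH tp G) (T : Th G a x₁ x₂ x₃ x₄ b) (ab : a ≠ b) : Star tp G ∧ Mai tp G := by
  obtain ⟨-, db, N1, N2, N3, N4, d, ne⟩ := T
  have hN := fun u => N_md (G := G) (W := {x₁, x₂, x₃, x₄, b}) (p := x₁) (q := b) (v := u)
    (by simp) (by simp)
  have b4 : G.Adj b x₄ := (mem_N.1 (by simp [N4])).symm
  have Nb : N G b = insert x₄ ((N G b).erase x₄) := (insert_erase (mem_N.2 b4)).symm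
  have out : ∀ w ∈ (N G b).erase x₄, w ∉ ({x₁, x₂, x₃, x₄, b} : Finset V) := by
    intro w hw hW
    obtain ⟨h4, hb⟩ := mem_erase.1 hw
    have h1 := (mem_N.1 hb).ne'
    have h2 := mem_N.2 (mem_N.1 hb).symm
    simp only [mem_insert, mem_singleton] at hW
    rcases hW with rfl | rfl | rfl | rfl | rfl
    · simp [N1, ne, ab.symm] at h2
    · simp [N2, ne] at h2
    · simp [N3, ne] at h2
    exacts [h4 rfl, h1 rfl]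
  generalize (N G b).erase x₄ = S at Nb out
  have x4S : x₄ ∉ S := fun h => out _ h (by simp)
  have x1S : x₁ ∉ S := fun h => out _ h (by simp)
  have M : N (md G {x₁, x₂, x₃, x₄, b} x₁ b) x₁ = {a, b} ∧
      N (md G {x₁, x₂, x₃, x₄, b} x₁ b) x₂ = ∅ ∧ N (md G {x₁, x₂, x₃, x₄, b} x₁ b) x₃ = ∅ ∧
      N (md G {x₁, x₂, x₃, x₄, b} x₁ b) x₄ = ∅ ∧
      N (md G {x₁, x₂, x₃, x₄, b} x₁ b) b = insert x₁ S := by
    refine ⟨?_, ?_, ?_, ?_, ?_⟩ <;> ext w <;> simp only [mem_N, md_adj] <;>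
      simp only [← mem_N, N1, N2, N3, N4, Nb] <;> grind
  generalize md G {x₁, x₂, x₃, x₄, b} x₁ b = G' at hN M
  obtain ⟨M1, M2, M3, M4, Mb⟩ := M
  have D1 : dg G' x₁ = 2 := by rw [dg, M1, card_pair ab]
  have D2 : dg G' x₂ = 0 := by rw [dg, M2, card_empty]
  have D3 : dg G' x₃ = 0 := by rw [dg, M3, card_empty]
  have D4 : dg G' x₄ = 0 := by rw [dg, M4, card_empty]
  have Db : dg G' b = dg G b :=
    (swap (c := fun _ _ => 0) (c' := fun _ _ => 0) Nb Mb x4S x1S rfl fun _ _ => rfl).1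
  have aW : a ∉ ({x₁, x₂, x₃, x₄, b} : Finset V) := by simp [ne, ab]
  simp only [mem_insert, mem_singleton, forall_eq_or_imp, forall_eq] at d
  refine reduce ih G' {x₁, x₂, x₃, x₄, b} ?_ hN ?_ ⟨x₂, by simp, by omega⟩
    (fun _ u _ => Or.inr trivial) (fun u hu w hw => Or.inl ?_) (fun _ Y hY u hu h => ?_)
    fun c hc t _ ht => ?_
  · simp only [mem_insert, mem_singleton, forall_eq_or_imp, forall_eq, K]
    omega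
  · simp only [mem_insert, mem_singleton, forall_eq_or_imp, forall_eq]
    omega
  · have := one_le_dg hw
    simp only [mem_insert, mem_singleton] at hu
    rw [K]
    rcases hu with rfl | rfl | rfl | rfl | rfl <;> omega
  · have h1 := hY.2 u h
    simp only [mem_insert, mem_singleton] at hu
    rcases hu with rfl | rfl | rfl | rfl | rfl
    · have := (hY.2 b (h1.2 (by simp [M1]))).1
      omega
    all_goals omega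
  have a1 : G'.Adj x₁ a := mem_N.1 (by simp [M1])
  have b1 : G'.Adj x₁ b := mem_N.1 (by simp [M1])
  have ⟨_, s0, q0⟩ := loc2 (c := c) M1 ab
  have q0 := q0.1 (hc.2.2.2 x₁)
  have ta := ht x₁ (by simp) a aW (mem_N.1 (by simp [N1]))
  have tb := hc.2.2.1 x₁ b b1
  rw [s0] at ta tb
  obtain ⟨f, hf, f1, f2, -⟩ := pick 0 (c x₁ a) (c x₁ b) 0
  refine ⟨ed x₁ x₂ (c x₁ b) (ed x₂ x₃ f (ed x₃ x₄ (c x₁ a) (ed x₄ b (c x₁ b) fun _ _ => 1))),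
    ed_symm (ed_symm (ed_symm (ed_symm fun _ _ => rfl))), ed_rng (hc.2.1 _ _ b1) (ed_rng hf
      (ed_rng (hc.2.1 _ _ a1) (ed_rng (hc.2.1 _ _ b1) (by simp)))), ?_⟩
  generalize hg : gl {x₁, x₂, x₃, x₄, b} _ c = g
  have ⟨_, s1, q1⟩ := loc2 (c := g) N1 ne.2.2.1.2.1
  have ⟨_, s2, q2⟩ := loc2 (c := g) N2 ne.1.2.1
  have ⟨_, s3, q3⟩ := loc2 (c := g) N3 ne.1.2.2.2.2.1
  have ⟨_, s4, q4⟩ := loc2 (c := g) N4 ne.2.2.2.2.2.1.symm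
  have e : (g x₁ a = c x₁ a ∧ g x₁ x₂ = c x₁ b ∧ g x₂ x₁ = c x₁ b ∧ g x₂ x₃ = f) ∧
      g x₃ x₂ = f ∧ g x₃ x₄ = c x₁ a ∧ g x₄ x₃ = c x₁ a ∧ g x₄ b = c x₁ b ∧ g b x₄ = c x₁ b := by
    subst hg
    simp [gl, ed, ne, ab]
  obtain ⟨-, sb, qb⟩ := swap (c := g) (c' := c) Nb Mb x4S x1S (e.2.2.2.2.2.trans (hc.1 _ _))
    fun w hw => by rw [← hg, gl, if_neg fun h => out w hw h.2]
  have hb : ∀ w ∈ S, sg G' c b ≠
      if w ∈ ({x₁, x₂, x₃, x₄, b} : Finset V) then sg G g w else t w := fun w hw => by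
    rw [if_neg (out w hw)]
    exact ht b (by simp) w (out w hw) (mem_N.1 (by simp [Nb, hw]))
  simp only [mem_insert, mem_singleton] at hb
  simp only [mem_insert, mem_singleton, forall_eq_or_imp, forall_eq, ← mem_N, N1, N2, N3, N4, Nb,
    q1, q2, q3, q4, s1, s2, s3, s4, sb, e, true_or, or_true, if_true, or_self, if_false, ne, ab]
  exact ⟨⟨q0, ta, by omega⟩, ⟨by omega, by omega, by omega⟩, ⟨by omega, by omega, by omega⟩,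
    ⟨q0, by omega, tb⟩, qb (hc.2.2.2 b), tb.symm, hb⟩

end T4A

open T4A in
theorem t4 : ST4 := by
  intro V _ G a x₁ x₂ x₃ x₄ b ih da db d1 d2 d3 d4 a1 h12 h23 h34 b4 n13 n24
  classical
  have na : ∀ u, dg G u = 2 → a ≠ u := fun u hu e => by rw [e] at da; omega
  have nb : ∀ u, dg G u = 2 → b ≠ u := fun u hu e => by rw [e] at db; omega
  have N1 := N2 d1 a1.symm h12 (na _ d2)
  have n14 : x₁ ≠ x₄ := fun e => by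
    have := mem_N.2 (e ▸ h34.symm : G.Adj x₁ x₃)
    simp [N1, (na _ d3).symm, h23.ne'] at this
  have T : Th G a x₁ x₂ x₃ x₄ b := ⟨da, db, N1, N2 d2 h12.symm h23 n13, N2 d3 h23.symm h34 n24,
    N2 d4 h34.symm b4 (nb _ d3).symm, by simp [d1, d2, d3, d4],
    ⟨h12.ne, n13, n14, h23.ne, n24, h34.ne⟩,
    ⟨h12.ne', n13.symm, n14.symm, h23.ne', n24.symm, h34.ne'⟩,
    ⟨na _ d1, na _ d2, na _ d3, na _ d4, (na _ d1).symm, (na _ d2).symm, (na _ d3).symm,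
      (na _ d4).symm⟩,
    nb _ d1, nb _ d2, nb _ d3, nb _ d4, (nb _ d1).symm, (nb _ d2).symm, (nb _ d3).symm,
      (nb _ d4).symm⟩
  rcases eq_or_ne a b with rfl | ab
  exacts [loop ih T, path ih T ab]

end Pool.Agent.MP_d1f1f3_co.H33
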