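import Pool.Agent.MP_d1f1f3_co.H33.Adj
import Pool.Agent.MP_d1f1f3_co.H33.K5
import Pool.Agent.MP_d1f1f3_co.H33.StarG
import Pool.Agent.MP_d1f1f3_co.H33.Cyc
import Pool.Agent.MP_d1f1f3_co.H33.Fin2
import Pool.Agent.MP_d1f1f3_co.H33.L5
import Pool.Agent.MP_d1f1f3_co.H33.T4
import Pool.Agent.MP_d1f1f3_co.H33.T3

/-!
The reduction layer, assembled.
-/

namespace Pool.Agent.MP_d1f1f3_co.H33

open Pool.Agent.MP_d1f1f3_co.H47

/-- Three consecutive vertices of degree two are reducible. -/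
theorem thr {V : Type} [Fintype V] {G : SimpleGraph V} {x₁ x₂ x₃ : V} (ih : IH tp G)
    (h2 : TwoK G) (d₁ : dg G x₁ = 2) (d₂ : dg G x₂ = 2) (d₃ : dg G x₃ = 2) (e₁ : G.Adj x₁ x₂)
    (e₂ : G.Adj x₂ x₃) (ne : x₁ ≠ x₃) : Star tp G ∧ Mai tp G :=
  thr_of cyc l5 t4 t3 ih h2 d₁ d₂ d₃ e₁ e₂ ne

/-- The statement in the words of the problem follows from `Mai`. -/
theorem fin3 : SFin2 := fin2 enum

end Pool.Agent.MP_d1f1f3_co.H33
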