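import Pool.Agent.MP_d1f1f3_co.H33.Spec

/-!
Statements of the reducible configurations, and the first one as a template.
-/

namespace Pool.Agent.MP_d1f1f3_co.H33

open Finset Pool.Agent.MP_d1f1f3_co.H47 Pool.Agent.MP_d1f1f3_co.H47.Red
set_option synthInstance.maxSize 2000 in
theorem k4_fin (p q r S : ℕ) (hp : 1 ≤ p ∧ p ≤ 4) (hq : 1 ≤ q ∧ q ≤ 4) (hr : 1 ≤ r ∧ r ≤ 4)
    (h : p = q → p = r → S ≠ p + 5) : ∃ a b c : ℕ, (1 ≤ a ∧ a ≤ 4) ∧ (1 ≤ b ∧ b ≤ 4) ∧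
      (1 ≤ c ∧ c ≤ 4) ∧ ¬(a = b ∧ a = p) ∧ ¬(a = c ∧ a = q) ∧ ¬(b = c ∧ b = r) ∧
      a + b + p ≠ a + c + q ∧ a + b + p ≠ b + c + r ∧ a + c + q ≠ b + c + r ∧
      a + b + p ≠ S ∧ a + c + q ≠ S ∧ b + c + r ≠ S := by
  have key : ∀ p ∈ Icc 1 4, ∀ q ∈ Icc 1 4, ∀ r ∈ Icc 1 4, ∀ S ∈ range 14,
      (p = q → p = r → S ≠ p + 5) → ∃ a ∈ Icc 1 4, ∃ b ∈ Icc 1 4, ∃ c ∈ Icc 1 4,
      ¬(a = b ∧ a = p) ∧ ¬(a = c ∧ a = q) ∧ ¬(b = c ∧ b = r) ∧
      a + b + p ≠ a + c + q ∧ a + b + p ≠ b + c + r ∧ a + c + q ≠ b + c + r ∧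
      a + b + p ≠ S ∧ a + c + q ≠ S ∧ b + c + r ≠ S := by decide +kernel
  obtain ⟨a, ha, b, hb, c, hc, h'⟩ := key p (mem_Icc.2 hp) q (mem_Icc.2 hq) r (mem_Icc.2 hr)
    (min S 13) (by simp) (by omega)
  rw [mem_Icc] at ha hb hc
  exact ⟨a, b, c, ha, hb, hc, by omega⟩

open scoped Classical

noncomputable section

/-- No condition on the degrees. -/
def tp : ℕ → Prop := fun _ => True

/-- Row K5H. -/
def SK5 : Prop :=
  ∀ (V : Type) [Fintype V] (p : ℕ → Prop) (G : SimpleGraph V) (a b c d x : V), IH p G →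
    dg G a = 4 → dg G b = 4 → dg G c = 4 → dg G d = 4 → G.Adj a b → G.Adj a c → G.Adj a d →
    G.Adj b c → G.Adj b d → G.Adj c d → G.Adj a x → G.Adj b x → G.Adj c x → G.Adj d x →
    Star p G ∧ Mai p G

/-- Row STAR. -/
def SStar : Prop :=
  ∀ (V : Type) [Fintype V] (p : ℕ → Prop) (G : SimpleGraph V) (r : V), (∀ v, K G v → v = r) →
    Star p G

/-- Row CYC: the vertices of a connected graph with degrees zero and two in cyclic order. -/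
def SEnum : Prop :=
  ∀ (V : Type) [Fintype V] (G : SimpleGraph V) (v : V), H47.Con G →
    (∀ v, dg G v = 0 ∨ dg G v = 2) → dg G v = 2 →
    ∃ (n : ℕ) (f : ZMod (n + 3) → V), Function.Injective f ∧
      (∀ i, N G (f i) = {f (i - 1), f (i + 1)}) ∧ ∀ w, dg G w = 2 → ∃ i, f i = w

/-- Row CYC. -/
def SCyc : Prop :=
  ∀ (V : Type) [Fintype V] (G : SimpleGraph V), H47.Con G → (∀ v, dg G v = 0 ∨ dg G v = 2) →
    ¬IsC5 G → ∃ c, Col G c

/-- Row L5: five consecutive vertices of degree two. -/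
def SL5 : Prop :=
  ∀ (V : Type) [Fintype V] (G : SimpleGraph V) (x₁ x₂ x₃ x₄ x₅ v : V), IH tp G → H47.Con G →
    dg G x₁ = 2 → dg G x₂ = 2 → dg G x₃ = 2 → dg G x₄ = 2 → dg G x₅ = 2 → G.Adj x₁ x₂ →
    G.Adj x₂ x₃ → G.Adj x₃ x₄ → G.Adj x₄ x₅ → x₁ ≠ x₃ → x₂ ≠ x₄ → x₃ ≠ x₅ → dg G v ≠ 0 →
    dg G v ≠ 2 → Star tp G ∧ Mai tp G

/-- Row T4: a thread with four inner vertices. -/
def ST4 : Prop :=
  ∀ (V : Type) [Fintype V] (G : SimpleGraph V) (a x₁ x₂ x₃ x₄ b : V), IH tp G →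
    3 ≤ dg G a → 3 ≤ dg G b → dg G x₁ = 2 → dg G x₂ = 2 → dg G x₃ = 2 → dg G x₄ = 2 →
    G.Adj a x₁ → G.Adj x₁ x₂ → G.Adj x₂ x₃ → G.Adj x₃ x₄ → G.Adj x₄ b → x₁ ≠ x₃ → x₂ ≠ x₄ →
    Star tp G ∧ Mai tp G

/-- Row T3: a thread with three inner vertices whose ends are not adjacent. -/
def ST3 : Prop :=
  ∀ (V : Type) [Fintype V] (G : SimpleGraph V) (a x₁ x₂ x₃ b : V), IH tp G →
    3 ≤ dg G a → 3 ≤ dg G b → dg G x₁ = 2 → dg G x₂ = 2 → dg G x₃ = 2 →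
    G.Adj a x₁ → G.Adj x₁ x₂ → G.Adj x₂ x₃ → G.Adj x₃ b → x₁ ≠ x₃ → ¬G.Adj a b →
    Star tp G ∧ Mai tp G

/-- Row FIN2: the statement in the words of the problem. -/
def SFin2 : Prop :=
  ∀ p : ℕ → Prop, (∀ (V : Type) [Fintype V] (G : SimpleGraph V), Mai p G) →
    ∀ (V : Type) [Fintype V] [DecidableEq V] (G : SimpleGraph V) [DecidableRel G.Adj],
      G.Connected → Fintype.card V ≠ 2 → IsEmpty (G ≃g SimpleGraph.cycleGraph 5) →
      (∀ v, G.degree v ≤ 1 ∨ p (G.degree v)) →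
      ∃ c : Sym2 V → ℕ, (∀ e ∈ G.edgeSet, 1 ≤ c e ∧ c e ≤ 4) ∧
        (∀ u w, G.Adj u w →
          ∑ z ∈ G.neighborFinset u, c s(u, z) ≠ ∑ z ∈ G.neighborFinset w, c s(w, z)) ∧
        ∀ u α, ((G.neighborFinset u).filter fun z => c s(u, z) = α).card ≤ (G.degree u + 1) / 2

variable {V : Type} [Fintype V]

/-- Three pairwise adjacent vertices of degree three with a common neighbour. -/
theorem k4h {p : ℕ → Prop} {G : SimpleGraph V} {x y v s : V} (ih : IH p G) (dx : dg G x = 3)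
    (dy : dg G y = 3) (dv : dg G v = 3) (xy : G.Adj x y) (xv : G.Adj x v) (yv : G.Adj y v)
    (xs : G.Adj x s) (ys : G.Adj y s) (vs : G.Adj v s) : Star p G ∧ Mai p G := by
  have ne : (x ≠ y ∧ x ≠ v ∧ y ≠ v ∧ x ≠ s ∧ y ≠ s ∧ v ≠ s) ∧
      y ≠ x ∧ v ≠ x ∧ v ≠ y ∧ s ≠ x ∧ s ≠ y ∧ s ≠ v :=
    ⟨⟨xy.ne, xv.ne, yv.ne, xs.ne, ys.ne, vs.ne⟩, xy.ne', xv.ne', yv.ne', xs.ne', ys.ne', vs.ne'⟩
  have Nx := N3 dx xy xv xs yv.ne ys.ne vs.ne
  have Ny := N3 dy xy.symm yv ys xv.ne xs.ne vs.ne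
  have Nv := N3 dv xv.symm yv.symm vs xy.ne xs.ne ys.ne
  have hN := fun u => N_md (G := G) (W := {x, y, v}) (p := x) (q := x) (v := u) (by simp) (by simp)
  have M : ∀ u ∈ ({x, y, v} : Finset V), N (md G {x, y, v} x x) u = {s} ∧ dg G u = 3 := by
    intro u hu
    simp only [mem_insert, mem_singleton] at hu
    rcases hu with rfl | rfl | rfl <;> refine ⟨?_, ‹_›⟩ <;> ext w <;>
      simp only [mem_N, md_adj] <;> simp only [← mem_N, Nx, Ny, Nv] <;> grind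
  have D : ∀ u ∈ ({x, y, v} : Finset V), dg (md G {x, y, v} x x) u = 1 := fun u hu => by
    rw [dg, (M u hu).1, card_singleton]
  have T : ({x, y, v} : Finset V) ⊆ N G s := by
    simp [insert_subset_iff, mem_N, xs.symm, ys.symm, vs.symm]
  have sW : s ∉ ({x, y, v} : Finset V) := by simp [ne]
  have cT : #({x, y, v} : Finset V) = 3 := card_eq_three.2 ⟨x, y, v, xy.ne, xv.ne, yv.ne, rfl⟩
  have ks : 3 ≤ dg (md G {x, y, v} x x) s := by
    rw [dg, hN s sW]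
    exact cT ▸ card_le_card T
  refine reduce ih (md G {x, y, v} x x) {x, y, v} (fun u hu => by rw [K, (M u hu).2]; omega) hN
    (fun u hu => by rw [D u hu, (M u hu).2]; omega) ⟨x, by simp, by rw [D x (by simp)]; omega⟩
    (fun _ u hu => Or.inl (D u hu).le) (fun u hu w hw => Or.inr ?_)
    (fun _ Y hY u hu h => by have := (hY.2 u h).1; have := D u hu; omega) fun c hc t ht _ => ?_
  · have := mem_N.2 hw
    rw [(M u hu).1, mem_singleton] at this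
    rw [this, K]
    omega
  have r : ∀ u ∈ ({x, y, v} : Finset V), 1 ≤ c u s ∧ c u s ≤ 4 := fun u hu =>
    hc.2.1 u s (mem_N.1 (by rw [(M u hu).1]; simp))
  obtain ⟨a, b, d, ha, hb, hd, h⟩ := k4_fin (c x s) (c y s) (c v s) (t s) (r x (by simp))
    (r y (by simp)) (r v (by simp)) fun e1 e2 => by
      have h1 := sg_ge (fun w hw => (hc.2.1 s w hw).1) (hc.2.2.2 s) {x, y, v} (hN s sW ▸ T)
      have h2 := (card_le_card (filter_subset_filter (fun w => c s w = c x s) (hN s sW ▸ T))).trans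
        (hc.2.2.2 s (c x s))
      have h3 := r x (by simp)
      rw [ht s (by rw [K]; omega)]
      have e : ∀ f : V → ℕ, ∑ w ∈ ({x, y, v} : Finset V), f w = f x + f y + f v := fun f => by
        rw [sum_insert (by simp [xy.ne, xv.ne]), sum_pair yv.ne, add_assoc]
      rw [cT, card_filter, e, e] at h1
      rw [card_filter, e] at h2
      simp only [hc.1 s, ← e1, ← e2, if_true] at h1 h2
      split_ifs at h1 <;> omega
  refine ⟨ed x y a (ed x v b (ed y v d fun _ _ => 1)),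
    ed_symm (ed_symm (ed_symm fun _ _ => rfl)), ed_rng ha (ed_rng hb (ed_rng hd (by simp))), ?_⟩
  generalize hg : gl {x, y, v} _ c = g
  have ⟨_, sx, qx⟩ := loc3 (c := g) Nx yv.ne ys.ne vs.ne
  have ⟨_, sy, qy⟩ := loc3 (c := g) Ny xv.ne xs.ne vs.ne
  have ⟨_, sv, qv⟩ := loc3 (c := g) Nv xy.ne xs.ne ys.ne
  have e : (g x y = a ∧ g x v = b ∧ g x s = c x s) ∧ (g y x = a ∧ g y v = d ∧ g y s = c y s) ∧
      g v x = b ∧ g v y = d ∧ g v s = c v s := by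
    subst hg
    simp [gl, ed, ne]
  simp only [mem_insert, mem_singleton, forall_eq_or_imp, forall_eq, ← mem_N, Nx, Ny, Nv, qx, qy,
    qv, sx, sy, sv, e, true_or, or_true, if_true, or_self, if_false, ne]
  obtain ⟨h1, h2, h3, h4, h5, h6, h7, h8, h9⟩ := h
  exact ⟨⟨h1, h4, h5, h7⟩, ⟨h2, h4.symm, h6, h8⟩, h3, h5.symm, h6.symm, h9⟩

end

end Pool.Agent.MP_d1f1f3_co.H33
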