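import Pool.Agent.MP_d1f1f3_co.H47.TAll
import Pool.Agent.MP_d1f1f3_co.H47.K4b
import Pool.Agent.MP_d1f1f3_co.H47.Kv2
import Pool.Agent.MP_d1f1f3_co.H47.Kev
import Pool.Agent.MP_d1f1f3_co.H2.Top1
import Pool.Agent.MP_d1f1f3_co.H2.Nj
import Pool.Agent.MP_d1f1f3_co.H2.Fin1

/-!
The base case without vertices of degree two, and the theorem for all graphs.
-/

namespace Pool.Agent.MP_d1f1f3_co.H33

open Finset H47 H2
open scoped Classical

theorem gen : SGen := fun V _ c d γ a b e => by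
  obtain ⟨a, E, Y, i, o, h, -⟩ := TH.genH V c d γ a b e
  exact ⟨a, E, Y, i, o, h⟩

theorem split {V : Type} [Fintype V] (s : Sg V) (hs : s.Ok) (ih : IH tp s.G) {γ τ : ℕ}
    (g1 : 1 ≤ γ) (g4 : γ ≤ 4) (e1 : s.γ = γ) (e2 : s.τ = τ) :
    Goal s.G s.z s.ρ γ τ ∨ (Star tp s.G ∧ Mai tp s.G) ∨ Kve s.G := by
  rcases top1 nj V s hs with h | h | h | h | h
  · exact Or.inl (fin1 gen blev2 V s γ τ hs g1 g4 e1 e2 h)
  · obtain ⟨a, b, c, d, ab, ac, bc, ad, bd, cd, da, db, dc⟩ := h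
    exact Or.inr (Or.inl (k4h ih da db dc ab ac bc ad bd cd))
  · exact Or.inr (Or.inl (k4b ih h))
  · exact Or.inr (Or.inl (kv2 ih h))
  · exact Or.inr (Or.inr h)

theorem one : TH.SOne := by
  intro V _ G h ih hh hc hT h2
  have deg : ∀ v, dg G v ≤ 1 ∨ 3 ≤ dg G v := fun v => by
    have := h2 v
    omega
  have pos : ∀ u w, G.Adj u w → 1 ≤ dg G w := fun u w a =>
    card_pos.2 ⟨u, mem_filter.2 ⟨mem_univ _, a.symm⟩⟩
  refine ⟨fun z ρ γ τ hz c g1 g4 hl => ?_, fun hl hv => ?_⟩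
  · have k : K G ρ := le_trans (by norm_num) c
    rcases split ⟨G, h, z, ρ, γ, τ⟩ ⟨hh, deg, hc, hT, hl, Or.inl ⟨hz, c⟩⟩ ih g1 g4 rfl rfl with
      a | a | a
    · exact a
    · exact a.1 h z ρ γ τ hh hc (fun _ => Or.inr trivial) hz k g1 g4
    · refine kev V G z ρ γ τ k (by rw [K, dg, hz, card_singleton]; omega) a.1 (fun u w e => ?_)
        a.2.1 a.2.2 g1 g4
      refine or_iff_not_imp_left.2 fun n => ?_
      have b := pos u w e
      obtain rfl := hl w (by unfold K at n; omega)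
      exact ⟨mem_singleton.1 (hz ▸ mem_filter.2 ⟨mem_univ _, e.symm⟩), rfl⟩
  · have k : ∀ u w, G.Adj u w → K G w := fun u w e => by
      have := pos u w e
      have := hl w
      unfold K
      omega
    rcases split ⟨G, h, h, h, (1 : ℕ), (0 : ℕ)⟩ ⟨hh, deg, hc, hT, fun v e => absurd e (hl v),
      Or.inr ⟨rfl, rfl, hv⟩⟩ ih le_rfl (by norm_num) rfl rfl with a | a | a
    · exact a.imp fun _ b => b.1
    · obtain ⟨v, hv⟩ := hv
      refine a.2 h hh hc (fun _ => Or.inr trivial) (fun u w e => Or.inr (k u w e)) fun b => ?_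
      have : dg G v = 0 ∨ dg G v = 2 := b.1 v
      unfold Co at hv
      omega
    · obtain ⟨v, hv⟩ := hv
      exact (kev V G h v 1 0 (le_trans (by norm_num) hv) (by rw [K, hh]; omega) a.1
        (fun u w e => Or.inl (k u w e)) a.2.1 a.2.2 le_rfl (by norm_num)).imp fun _ b => b.1

theorem all (V : Type) [Fintype V] (G : SimpleGraph V) : Mai tp G := TH.top one TH.thr2 V G

end Pool.Agent.MP_d1f1f3_co.H33
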