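import Pool.Agent.MP_d1f1f3_co.H47.Red

/-!
The reduction layer: definitions, the induction, and the tools for reducible configurations.
-/

namespace Pool.Agent.MP_d1f1f3_co.H33

open Finset Pool.Agent.MP_d1f1f3_co.H47 Pool.Agent.MP_d1f1f3_co.H47.Red
open scoped Classical

noncomputable section

variable {V : Type} [Fintype V]

/-- A five-cycle and isolated vertices. -/
def IsC5 (G : SimpleGraph V) : Prop :=
  (∀ v, dg G v = 0 ∨ dg G v = 2) ∧ #(univ.filter fun v => dg G v = 2) = 5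

/-- The rooted statement. -/
def Star (p : ℕ → Prop) (G : SimpleGraph V) : Prop :=
  ∀ (h z ρ : V) (γ τ : ℕ), dg G h = 0 → Con G → Dg p G → N G z = {ρ} → K G ρ → 1 ≤ γ → γ ≤ 4 →
    Goal G z ρ γ τ

/-- The main statement. -/
def Mai (p : ℕ → Prop) (G : SimpleGraph V) : Prop :=
  ∀ h : V, dg G h = 0 → Con G → Dg p G → (∀ u w, G.Adj u w → K G u ∨ K G w) → ¬IsC5 G →
    ∃ c, Col G c

/-- Both statements for all graphs with fewer edges. -/
def IH (p : ℕ → Prop) (G : SimpleGraph V) : Prop :=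
  ∀ G₂ : SimpleGraph V, ∑ v, dg G₂ v < ∑ v, dg G v → Star p G₂ ∧ Mai p G₂

/-- Quasi-majority at one vertex. -/
def QM (G : SimpleGraph V) (c : V → V → ℕ) (v : V) : Prop :=
  ∀ α, #((N G v).filter fun w => c v w = α) ≤ (dg G v + 1) / 2

/-- Five vertices of degree two with no other neighbours. -/
def C5s (G : SimpleGraph V) (Y : Finset V) : Prop :=
  #Y = 5 ∧ ∀ v ∈ Y, dg G v = 2 ∧ N G v ⊆ Y

/-- New colours `n` on the edges inside `W`, the old colours `c` elsewhere. -/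
def gl (W : Finset V) (n c : V → V → ℕ) (u w : V) : ℕ := if u ∈ W ∧ w ∈ W then n u w else c u w

/-- Remove the edges inside `W` and add the edge `p q` (nothing if `p = q`). -/
def md (G : SimpleGraph V) (W : Finset V) (p q : V) : SimpleGraph V where
  Adj u w := (G.Adj u w ∧ ¬(u ∈ W ∧ w ∈ W)) ∨ (p ≠ q ∧ (u = p ∧ w = q ∨ u = q ∧ w = p))
  symm := ⟨fun _ _ h => by
    rcases h with ⟨h1, h2⟩ | ⟨h1, h2 | h2⟩
    exacts [Or.inl ⟨h1.symm, fun h => h2 h.symm⟩, Or.inr ⟨h1, Or.inr h2.symm⟩,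
      Or.inr ⟨h1, Or.inl h2.symm⟩]⟩
  loopless := ⟨fun _ h => by
    rcases h with ⟨h1, -⟩ | ⟨h1, ⟨rfl, h2⟩ | ⟨rfl, h2⟩⟩
    exacts [h1.ne rfl, h1 h2, h1 h2.symm]⟩

/-- One edge gets the colour `k`. -/
def ed (a b : V) (k : ℕ) (n : V → V → ℕ) (u w : V) : ℕ :=
  if u = a ∧ w = b ∨ u = b ∧ w = a then k else n u w

omit [Fintype V] in
theorem md_adj {G : SimpleGraph V} {W : Finset V} {p q u w : V} : (md G W p q).Adj u w ↔
    (G.Adj u w ∧ ¬(u ∈ W ∧ w ∈ W)) ∨ (p ≠ q ∧ (u = p ∧ w = q ∨ u = q ∧ w = p)) := Iff.rfl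

theorem N_md {G : SimpleGraph V} {W : Finset V} {p q v : V} (hp : p ∈ W) (hq : q ∈ W)
    (hv : v ∉ W) : N (md G W p q) v = N G v := by
  ext w
  rw [mem_N, mem_N, md_adj]
  constructor
  · rintro (⟨h, -⟩ | ⟨-, ⟨rfl, -⟩ | ⟨rfl, -⟩⟩)
    exacts [h, absurd hp hv, absurd hq hv]
  · exact fun h => Or.inl ⟨h, fun h' => hv h'.1⟩

omit [Fintype V] in
theorem ed_symm {a b : V} {k : ℕ} {n : V → V → ℕ} (h : ∀ u w, n u w = n w u) (u w : V) :
    ed a b k n u w = ed a b k n w u := by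
  unfold ed
  rw [h u w]
  exact if_congr (by tauto) rfl rfl

omit [Fintype V] in
theorem ed_rng {a b : V} {k : ℕ} {n : V → V → ℕ} (hk : 1 ≤ k ∧ k ≤ 4)
    (h : ∀ u w, 1 ≤ n u w ∧ n u w ≤ 4) (u w : V) : 1 ≤ ed a b k n u w ∧ ed a b k n u w ≤ 4 := by
  unfold ed
  split_ifs
  exacts [hk, h u w]

theorem dg_congr {G G' : SimpleGraph V} {v : V} (h : N G' v = N G v) : dg G' v = dg G v := by
  rw [dg, dg, h]

theorem same {G G' : SimpleGraph V} {c c' : V → V → ℕ} {v : V} (h : N G' v = N G v)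
    (hc : ∀ w, G.Adj v w → c v w = c' v w) :
    sg G c v = sg G' c' v ∧ (QM G' c' v → QM G c v) := by
  refine ⟨?_, fun h' α => ?_⟩
  · rw [sg, sg, h]
    exact sum_congr rfl fun w hw => hc w (mem_N.1 hw)
  · have := h' α
    rw [h, dg_congr h] at this
    rwa [filter_congr fun w hw => by rw [hc w (mem_N.1 hw)]]

/-- One neighbour is replaced by another one, the colours stay. -/
theorem swap {G G' : SimpleGraph V} {c c' : V → V → ℕ} {v x y : V} {S : Finset V}
    (h : N G v = insert x S) (h' : N G' v = insert y S) (hx : x ∉ S) (hy : y ∉ S)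
    (e : c v x = c' v y) (hc : ∀ w ∈ S, c v w = c' v w) :
    dg G' v = dg G v ∧ sg G c v = sg G' c' v ∧ (QM G' c' v → QM G c v) := by
  have hd : dg G' v = dg G v := by
    rw [dg, dg, h, h', card_insert_of_notMem hx, card_insert_of_notMem hy]
  refine ⟨hd, ?_, fun hq α => ?_⟩
  · rw [sg, sg, h, h', sum_insert hx, sum_insert hy, e, sum_congr rfl hc]
  · have := hq α
    rw [h', hd, filter_insert] at this
    rw [h, filter_insert, e, filter_congr fun w hw => by rw [hc w hw]]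
    split_ifs at this ⊢
    · rwa [card_insert_of_notMem (fun h => by first | exact hx (mem_filter.1 h).1 | exact hy (mem_filter.1 h).1)] at this ⊢
    · exact this

theorem N2 {G : SimpleGraph V} {x a b : V} (hd : dg G x = 2) (ha : G.Adj x a) (hb : G.Adj x b)
    (hab : a ≠ b) : N G x = {a, b} :=
  (eq_of_subset_of_card_le (by
    intro w hw
    rcases mem_insert.1 hw with rfl | hw
    exacts [mem_N.2 ha, mem_singleton.1 hw ▸ mem_N.2 hb]) (by
      rw [card_pair hab]; exact hd.le)).symm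

theorem N3 {G : SimpleGraph V} {x a b d : V} (hd : dg G x = 3) (ha : G.Adj x a) (hb : G.Adj x b)
    (he : G.Adj x d) (hab : a ≠ b) (had : a ≠ d) (hbd : b ≠ d) : N G x = {a, b, d} :=
  (eq_of_subset_of_card_le (by
    intro w hw
    simp only [mem_insert, mem_singleton] at hw
    rcases hw with rfl | rfl | rfl <;> exact mem_N.2 ‹_›) (by
      rw [card_eq_three.2 ⟨a, b, d, hab, had, hbd, rfl⟩]; exact hd.le)).symm

theorem N4 {G : SimpleGraph V} {x a b d e : V} (hd : dg G x = 4) (ha : G.Adj x a)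
    (hb : G.Adj x b) (he : G.Adj x d) (hf : G.Adj x e) (hab : a ≠ b) (had : a ≠ d) (hae : a ≠ e)
    (hbd : b ≠ d) (hbe : b ≠ e) (hde : d ≠ e) : N G x = {a, b, d, e} :=
  (eq_of_subset_of_card_le (by
    intro w hw
    simp only [mem_insert, mem_singleton] at hw
    rcases hw with rfl | rfl | rfl | rfl <;> exact mem_N.2 ‹_›) (by
      rw [card_insert_of_notMem (by simp [*]), card_eq_three.2 ⟨b, d, e, hbd, hbe, hde, rfl⟩]
      exact hd.le)).symm

/-- The other neighbour of a vertex of degree two. -/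
theorem other {G : SimpleGraph V} {x : V} (hd : dg G x = 2) (a : V) :
    ∃ b, b ≠ a ∧ G.Adj x b := by
  obtain ⟨b, hb, hne⟩ := exists_mem_ne (s := N G x) (by rw [← dg, hd]; norm_num) a
  exact ⟨b, hne, mem_N.1 hb⟩

theorem loc1 {G : SimpleGraph V} {c : V → V → ℕ} {x a : V} (h : N G x = {a}) :
    dg G x = 1 ∧ sg G c x = c x a ∧ QM G c x := by
  have hd : dg G x = 1 := by rw [dg, h, card_singleton]
  refine ⟨hd, by rw [sg, h, sum_singleton], fun α => ?_⟩
  exact (card_filter_le _ _).trans (by rw [← dg, hd])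

theorem loc2 {G : SimpleGraph V} {c : V → V → ℕ} {x a b : V} (h : N G x = {a, b}) (hab : a ≠ b) :
    dg G x = 2 ∧ sg G c x = c x a + c x b ∧ (QM G c x ↔ c x a ≠ c x b) := by
  have hd : dg G x = 2 := by rw [dg, h, card_pair hab]
  refine ⟨hd, by rw [sg, h, sum_pair hab], ?_⟩
  simp only [QM, hd, h, card_filter, sum_pair hab]
  refine ⟨fun h' e => ?_, fun h' α => ?_⟩
  · have := h' (c x a)
    simp [e] at this
  · split_ifs <;> omega

theorem loc3 {G : SimpleGraph V} {c : V → V → ℕ} {x a b d : V} (h : N G x = {a, b, d})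
    (hab : a ≠ b) (had : a ≠ d) (hbd : b ≠ d) :
    dg G x = 3 ∧ sg G c x = c x a + c x b + c x d ∧
      (QM G c x ↔ ¬(c x a = c x b ∧ c x a = c x d)) := by
  have hd : dg G x = 3 := by rw [dg, h, card_eq_three.2 ⟨a, b, d, hab, had, hbd, rfl⟩]
  have e : ∀ f : V → ℕ, ∑ w ∈ ({a, b, d} : Finset V), f w = f a + f b + f d := fun f => by
    rw [sum_insert (by simp [*]), sum_pair hbd, add_assoc]
  refine ⟨hd, by rw [sg, h, e], ?_⟩
  simp only [QM, hd, h, card_filter, e]
  refine ⟨fun h' e => ?_, fun h' α => ?_⟩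
  · have := h' (c x a)
    simp [← e.1, ← e.2] at this
  · split_ifs <;> omega

theorem loc4 {G : SimpleGraph V} {c : V → V → ℕ} {x a b d e : V} (h : N G x = {a, b, d, e})
    (hab : a ≠ b) (had : a ≠ d) (hae : a ≠ e) (hbd : b ≠ d) (hbe : b ≠ e) (hde : d ≠ e) :
    dg G x = 4 ∧ sg G c x = c x a + c x b + c x d + c x e ∧
      (QM G c x ↔ ¬(c x a = c x b ∧ c x a = c x d) ∧ ¬(c x a = c x b ∧ c x a = c x e) ∧
        ¬(c x a = c x d ∧ c x a = c x e) ∧ ¬(c x b = c x d ∧ c x b = c x e)) := by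
  have e' : ∀ f : V → ℕ, ∑ w ∈ ({a, b, d, e} : Finset V), f w = f a + f b + f d + f e :=
    fun f => by
      rw [sum_insert (by simp [*]), sum_insert (by simp [*]), sum_pair hde]
      ring
  have hd : dg G x = 4 := by rw [dg, h, card_eq_sum_ones, e']
  refine ⟨hd, by rw [sg, h, e'], ?_⟩
  simp only [QM, hd, h, card_filter, e']
  refine ⟨fun h' => ?_, fun h' α => ?_⟩
  · have h1 := h' (c x a)
    have h2 := h' (c x b)
    split_ifs at h1 h2 <;> omega
  · split_ifs <;> omega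

/-- Lower bound for the sum without the edges to `T`. -/
theorem sg_ge {G : SimpleGraph V} {c : V → V → ℕ} {v : V} (h1 : ∀ w, G.Adj v w → 1 ≤ c v w)
    (hq : QM G c v) (T : Finset V) (hT : T ⊆ N G v) :
    ∑ w ∈ T, c v w + 2 * (dg G v - #T) + #(T.filter fun w => c v w = 1) ≤
      sg G c v + (dg G v + 1) / 2 ∧ ∑ w ∈ T, c v w + (dg G v - #T) ≤ sg G c v := by
  have e1 : sg G c v = ∑ w ∈ N G v \ T, c v w + ∑ w ∈ T, c v w := (sum_sdiff hT).symm
  have e2 : dg G v - #T = #(N G v \ T) := (card_sdiff_of_subset hT).symm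
  have e3 : #((N G v).filter fun w => c v w = 1) =
      #((N G v \ T).filter fun w => c v w = 1) + #(T.filter fun w => c v w = 1) := by
    simp only [card_filter]
    exact (sum_sdiff hT).symm
  have e4 : #(N G v \ T) * 2 ≤
      ∑ w ∈ N G v \ T, c v w + #((N G v \ T).filter fun w => c v w = 1) := by
    rw [card_filter, ← sum_add_distrib, ← smul_eq_mul, ← sum_const]
    refine sum_le_sum fun w hw => ?_
    have := h1 w (mem_N.1 (mem_sdiff.1 hw).1)
    split_ifs <;> omega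
  have e5 : #(N G v \ T) ≤ ∑ w ∈ N G v \ T, c v w := by
    rw [card_eq_sum_ones]
    exact sum_le_sum fun w hw => h1 w (mem_N.1 (mem_sdiff.1 hw).1)
  have := hq 1
  omega

/-- A colour different from three given values. -/
theorem pick (s a b d : ℕ) : ∃ k, (1 ≤ k ∧ k ≤ 4) ∧ s + k ≠ a ∧ s + k ≠ b ∧ s + k ≠ d := by
  by_contra h
  push Not at h
  have h1 := h 1
  have h2 := h 2
  have h3 := h 3
  have h4 := h 4
  omega

theorem closed {G : SimpleGraph V} (hc : Con G) {Y : Finset V} (hY : ∀ v ∈ Y, N G v ⊆ Y) {u w : V}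
    (hu : u ∈ Y) (du : 1 ≤ dg G u) (dw : 1 ≤ dg G w) : w ∈ Y := by
  by_contra hw
  obtain ⟨a, ha, b, hb, hab⟩ := exists_of_cut (hc Y u w hu hw du dw)
  exact hb (hY a ha (mem_N.2 hab))

theorem red2 (p : ℕ → Prop) (hR : ∀ G : SimpleGraph V, IH p G → TwoK G → Star p G)
    (h0 : ∀ (G : SimpleGraph V) (h : V), IH p G → dg G h = 0 → Con G → Dg p G → TwoK G →
      (∀ v, dg G v ≠ 1) → ¬IsC5 G → ∃ c, Col G c) (G : SimpleGraph V) : Star p G ∧ Mai p G := by
  induction hn : ∑ v, dg G v using Nat.strong_induction_on generalizing G with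
  | _ n ih =>
  have IHG : IH p G := fun G₂ h => ih _ (hn ▸ h) G₂ rfl
  have hS : Star p G := by
    by_cases h2 : TwoK G
    · exact hR G IHG h2
    intro h z ρ γ τ hh hc hd hz kρ g1 g4
    obtain ⟨X, u, v, hb, hρ⟩ := split hc (K_end hc kρ) h2 ρ
    have hρX : ρ ∈ X := hρ kρ
    have hzρ : G.Adj z ρ := mem_N.1 (hz ▸ mem_singleton_self ρ)
    have hzX : z ∈ X := by
      by_contra hzX
      have e := (hb.only ρ hρX z hzX hzρ.symm).2
      have k : 2 ≤ dg G v := hb.kv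
      rw [← e, dg, hz, card_singleton] at k
      omega
    have k1 : K (side G X) ρ := by
      unfold K
      rw [dg_side hρX]
      exact kρ
    obtain ⟨c₁, h1, h3⟩ := (IHG _ hb.lt).1 h z ρ γ τ
      (by have := dg_side_le G X h; omega) (hb.con hc) (hb.deg hd) ((N_side hzX).trans hz) k1 g1 g4
    obtain ⟨c, hcol, e1, e2⟩ := extend hb hh hc hd ((IHG _ hb.compl.lt).1 h u v) h1
    obtain ⟨h4, h5⟩ := h3 ⟨hzρ, Or.inl hzX⟩
    exact ⟨c, hcol, fun _ => ⟨(e1 z hzX ρ hρX).trans h4, (e2 ρ hρX).symm ▸ h5⟩⟩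
  refine ⟨hS, fun h hh hc hd hK h5 => ?_⟩
  by_cases hl : ∃ z, dg G z = 1
  · obtain ⟨z, hz⟩ := hl
    obtain ⟨ρ, hρ⟩ := card_eq_one.1 hz
    have hzρ : G.Adj z ρ := mem_N.1 (hρ ▸ mem_singleton_self ρ)
    have kρ : K G ρ := (hK z ρ hzρ).resolve_left (by unfold K; omega)
    obtain ⟨c, hcol, _⟩ := hS h z ρ 1 0 hh hc hd hρ kρ le_rfl (by norm_num)
    exact ⟨c, hcol⟩
  push Not at hl
  by_cases h2 : TwoK G
  · exact h0 G h IHG hh hc hd h2 hl h5
  obtain ⟨X, u, v, hb, _⟩ := split hc hK h2 h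
  have k1 : K (side G X) u := by
    unfold K
    rw [dg_side hb.hu]
    exact hb.ku
  obtain ⟨c₁, h1, _⟩ := (IHG _ hb.lt).1 h v u 1 0
    (by have := dg_side_le G X h; omega) (hb.con hc) (hb.deg hd) hb.N_v k1 le_rfl (by norm_num)
  obtain ⟨c, hcol, _⟩ := extend hb hh hc hd ((IHG _ hb.compl.lt).1 h u v) h1
  exact ⟨c, hcol⟩

theorem solve {p : ℕ → Prop} {G : SimpleGraph V} (ih : IH p G) {h : V} (G' : SimpleGraph V)
    (hlt : ∑ v, dg G' v < ∑ v, dg G v) (hh : dg G' h = 0) (hd : Dg p G')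
    (hK : ∀ u w, G'.Adj u w → K G' u ∨ K G' w) (h5 : ∀ Y, ¬C5s G' Y) {z ρ : V}
    (hz : G'.Adj z ρ → N G' z = {ρ}) {γ : ℕ} (τ : ℕ) (g1 : 1 ≤ γ) (g4 : γ ≤ 4) :
    Goal G' z ρ γ τ := by
  induction hn : ∑ v, dg G' v using Nat.strong_induction_on generalizing G' with
  | _ n ind =>
  by_cases hc : Con G'
  · by_cases ha : G'.Adj z ρ
    · refine (ih G' hlt).1 h z ρ γ τ hh hc hd (hz ha) ((hK z ρ ha).resolve_left ?_) g1 g4
      rw [K, dg, hz ha, card_singleton]
      omega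
    · obtain ⟨c, hcol⟩ := (ih G' hlt).2 h hh hc hd hK fun h' =>
        h5 _ ⟨h'.2, fun v hv => ⟨(mem_filter.1 hv).2, fun w hw => mem_filter.2 ⟨mem_univ _, by
          have := one_le_dg (mem_N.1 hw).symm
          have := h'.1 w
          omega⟩⟩⟩
      exact ⟨c, hcol, fun h' => absurd h' ha⟩
  unfold H47.Con at hc
  push Not at hc
  obtain ⟨X, u, w, hu, hw, du, dw, hX⟩ := hc
  have cl : ∀ a b, G'.Adj a b → (a ∈ X ↔ b ∈ X) := fun a b hab =>
    ⟨fun ha => by_contra fun hb => by have := cut_of_exists ha hb hab; omega,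
      fun hb => by_contra fun ha => by have := cut_of_exists hb ha hab.symm; omega⟩
  have key : ∀ Z : Finset V, (∀ a b, G'.Adj a b → (a ∈ Z ↔ b ∈ Z)) → ∀ w, w ∉ Z → 1 ≤ dg G' w →
      Goal (side G' Z) z ρ γ τ := by
    intro Z hZ w hw dw
    have out : ∀ a, a ∉ Z → dg (side G' Z) a = 0 := fun a ha => by
      refine card_eq_zero.2 (eq_empty_of_forall_notMem fun b hb => ?_)
      obtain ⟨h1, h2 | h2⟩ := mem_N.1 hb
      exacts [ha h2, ha ((hZ a b h1).2 h2)]
    have inn : ∀ a b, (side G' Z).Adj a b → a ∈ Z := fun a b hab => by_contra fun ha => by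
      have := one_le_dg hab
      have := out a ha
      omega
    have lt : ∑ v, dg (side G' Z) v < ∑ v, dg G' v :=
      sum_lt_sum (fun a _ => dg_side_le G' Z a) ⟨w, mem_univ _, by rw [out w hw]; exact dw⟩
    refine ind _ (hn ▸ lt) _ (lt.trans hlt) (by have := dg_side_le G' Z h; omega) (fun a => ?_)
      (fun a b hab => ?_) (fun Y hY => h5 Y ⟨hY.1, fun v hv => ?_⟩)
      (fun ha => (N_side (inn _ _ ha)).trans (hz ha.1)) rfl
    · by_cases ha : a ∈ Z
      · rw [dg_side ha]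
        exact hd a
      · rw [out a ha]
        exact Or.inl zero_le_one
    · rw [K, K, dg_side (inn _ _ hab), dg_side (inn _ _ hab.symm)]
      exact hK a b hab.1
    · have h1 := hY.2 v hv
      have h2 : v ∈ Z := by_contra fun h2 => by have := out v h2; omega
      rwa [dg_side h2, N_side h2] at h1
  obtain ⟨c₁, h1, r1⟩ := key X cl w hw dw
  obtain ⟨c₂, h2, r2⟩ := key Xᶜ (fun a b hab => by simp [cl a b hab]) u (by simpa using hu) du
  have e1 : ∀ a ∈ X, ∀ b, G'.Adj a b → gl X c₁ c₂ a b = c₁ a b := fun a ha b hab =>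
    if_pos ⟨ha, (cl a b hab).1 ha⟩
  have e2 : ∀ a, a ∉ X → ∀ b, gl X c₁ c₂ a b = c₂ a b := fun a ha b => if_neg fun h => ha h.1
  have s1 := fun a (ha : a ∈ X) => same (N_side (G := G') ha) (e1 a ha)
  have s2 := fun a (ha : a ∉ X) => same (N_side (G := G') (mem_compl.2 ha)) fun b _ => e2 a ha b
  refine ⟨gl X c₁ c₂, ⟨fun a b => ?_, fun a b hab => ?_, fun a b hab => ?_, fun a => ?_⟩,
    fun ha => ?_⟩
  · unfold gl
    rw [h1.1 a b, h2.1 a b]
    exact if_congr and_comm rfl rfl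
  · by_cases ha : a ∈ X
    · rw [e1 a ha b hab]
      exact h1.2.1 a b ⟨hab, Or.inl ha⟩
    · rw [e2 a ha b]
      exact h2.2.1 a b ⟨hab, Or.inl (mem_compl.2 ha)⟩
  · by_cases ha : a ∈ X
    · rw [(s1 a ha).1, (s1 b ((cl a b hab).1 ha)).1]
      exact h1.2.2.1 a b ⟨hab, Or.inl ha⟩
    · rw [(s2 a ha).1, (s2 b fun hb => ha ((cl a b hab).2 hb)).1]
      exact h2.2.2.1 a b ⟨hab, Or.inl (mem_compl.2 ha)⟩
  · by_cases ha : a ∈ X
    exacts [(s1 a ha).2 (h1.2.2.2 a), (s2 a ha).2 (h2.2.2.2 a)]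
  · by_cases hzX : z ∈ X
    · rw [e1 z hzX ρ ha, (s1 ρ ((cl _ _ ha).1 hzX)).1]
      exact r1 ⟨ha, Or.inl hzX⟩
    · rw [e2 z hzX ρ, (s2 ρ fun hb => hzX ((cl _ _ ha).2 hb)).1]
      exact r2 ⟨ha, Or.inl (mem_compl.2 hzX)⟩

/-- The sum at a vertex of degree at least two exceeds the colour of each of its edges. -/
theorem lt_sg {G : SimpleGraph V} {c : V → V → ℕ} {v w : V} (h1 : ∀ w, G.Adj v w → 1 ≤ c v w)
    (hv : K G v) (hw : G.Adj v w) : c v w < sg G c v := by
  obtain ⟨x, hx, hne⟩ := exists_mem_ne (s := N G v) hv w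
  have := sum_le_sum_of_subset (f := c v) (show ({w, x} : Finset V) ⊆ N G v by
    intro y hy
    rcases mem_insert.1 hy with rfl | hy
    exacts [mem_N.2 hw, mem_singleton.1 hy ▸ hx])
  rw [sum_pair hne.symm] at this
  have := h1 x (mem_N.1 hx)
  unfold sg
  omega

/-- The conditions on the new colours inside `W`; `s w` is the value to avoid at the neighbours
of a vertex `w` outside `W`. -/
def Ext (G : SimpleGraph V) (W : Finset V) (c' : V → V → ℕ) (s : V → ℕ) : Prop :=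
  ∃ n : V → V → ℕ, (∀ u w, n u w = n w u) ∧ (∀ u w, 1 ≤ n u w ∧ n u w ≤ 4) ∧
    ∀ v ∈ W, QM G (gl W n c') v ∧ ∀ w, G.Adj v w →
      sg G (gl W n c') v ≠ if w ∈ W then sg G (gl W n c') w else s w

/-- Reducible configurations: `G'` agrees with `G` outside `W`. -/
theorem reduce {p : ℕ → Prop} {G : SimpleGraph V} (ih : IH p G) (G' : SimpleGraph V)
    (W : Finset V) (hK : ∀ v ∈ W, K G v) (hN : ∀ v, v ∉ W → N G' v = N G v)
    (hle : ∀ v ∈ W, dg G' v ≤ dg G v) (hlt : ∃ v ∈ W, dg G' v < dg G v)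
    (hp : Dg p G → ∀ v ∈ W, dg G' v ≤ 1 ∨ p (dg G' v))
    (hK' : ∀ v ∈ W, ∀ w, G'.Adj v w → K G' v ∨ K G' w)
    (h5 : Con G → ∀ Y, C5s G' Y → ∀ v ∈ W, v ∉ Y)
    (hext : ∀ c', Col G' c' → ∀ s : V → ℕ, (∀ w, K G' w → s w = sg G' c' w) →
      (∀ v ∈ W, ∀ w, w ∉ W → G.Adj v w → sg G' c' v ≠ s w) → Ext G W c' s) :
    Star p G ∧ Mai p G := by
  have main : ∀ (h z ρ : V) (γ τ : ℕ), dg G h = 0 → Con G → Dg p G →
      (∀ u w, G.Adj u w → K G u ∨ K G w) → (∀ w, G.Adj z w → w = ρ) → 1 ≤ γ →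
      γ ≤ 4 → Goal G z ρ γ τ := by
    intro h z ρ γ τ hh hc hd hE hz' g1 g4
    have hz : G.Adj z ρ → N G z = {ρ} := fun ha =>
      eq_singleton_iff_unique_mem.2 ⟨mem_N.2 ha, fun w hw => hz' w (mem_N.1 hw)⟩
    have dz : dg G z ≤ 1 := card_le_one.2 fun a ha b hb =>
      (hz' a (mem_N.1 ha)).trans (hz' b (mem_N.1 hb)).symm
    have hD := fun v (hv : v ∉ W) => dg_congr (hN v hv)
    have ad : ∀ v, v ∉ W → ∀ w, G'.Adj v w ↔ G.Adj v w := fun v hv w => by
      rw [← mem_N, hN v hv, mem_N]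
    have zW : z ∉ W := fun hz => by have : 2 ≤ dg G z := hK z hz; omega
    have hW : h ∉ W := fun hz => by have : 2 ≤ dg G h := hK h hz; omega
    obtain ⟨v₀, hv₀, lt₀⟩ := hlt
    obtain ⟨c', hc', hr⟩ := solve ih (h := h) G' (sum_lt_sum (fun v _ => by
        by_cases hv : v ∈ W
        exacts [hle v hv, (hD v hv).le]) ⟨v₀, mem_univ _, lt₀⟩) ((hD h hW).trans hh)
      (fun v => by
        by_cases hv : v ∈ W
        · exact hp hd v hv
        · rw [hD v hv]
          exact hd v)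
      (fun u w huw => by
        by_cases hu : u ∈ W
        · exact hK' u hu w huw
        by_cases hw : w ∈ W
        · exact (hK' w hw u huw.symm).symm
        rw [K, K, hD u hu, hD w hw]
        exact hE u w ((ad u hu w).1 huw))
      (fun Y hY => by
        have n := h5 hc Y hY
        obtain ⟨y, hy⟩ := card_pos.1 (show 0 < #Y by rw [hY.1]; norm_num)
        have k : 2 ≤ dg G v₀ := hK v₀ hv₀
        refine n v₀ hv₀ (closed hc (fun v hv => ?_) hy ?_ (by omega))
        · rw [← hN v fun h => n v h hv]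
          exact (hY.2 v hv).2
        · rw [← hD y fun h => n y h hy, (hY.2 y hy).1]
          norm_num)
      (z := z) (ρ := ρ) (fun ha => (hN z zW).trans (hz ((ad z zW ρ).1 ha))) τ g1 g4
    obtain ⟨n, n1, n2, n3⟩ := hext c' hc' (fun w => if w = z then τ else sg G' c' w)
      (fun w hw => if_neg fun e => by
        rw [e, K, hD z zW] at hw
        omega)
      (fun v hv w hw hvw => by
        split_ifs with e
        · subst e
          obtain rfl := hz' v hvw.symm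
          exact (hr ((ad w hw v).2 hvw.symm)).2
        · exact hc'.2.2.1 v w ((ad w hw v).2 hvw.symm).symm)
    have e : ∀ v, v ∉ W → ∀ w, gl W n c' v w = c' v w := fun v hv w => if_neg fun h => hv h.1
    have sm := fun v (hv : v ∉ W) => same (hN v hv) fun w _ => e v hv w
    have sy : ∀ u w, gl W n c' u w = gl W n c' w u := fun u w => by
      unfold gl
      rw [n1 u w, hc'.1 u w]
      exact if_congr and_comm rfl rfl
    have rg : ∀ u w, G.Adj u w → 1 ≤ gl W n c' u w ∧ gl W n c' u w ≤ 4 := fun u w huw => by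
      by_cases hu : u ∈ W
      · by_cases hw : w ∈ W
        · rw [gl, if_pos ⟨hu, hw⟩]
          exact n2 u w
        · rw [sy, e w hw]
          exact hc'.2.1 w u ((ad w hw u).2 huw.symm)
      · rw [e u hu]
        exact hc'.2.1 u w ((ad u hu w).2 huw)
    have df : ∀ u ∈ W, ∀ w, G.Adj u w → sg G (gl W n c') u ≠ sg G (gl W n c') w := by
      intro u hu w huw
      have := (n3 u hu).2 w huw
      by_cases h1 : w ∈ W
      · rwa [if_pos h1] at this
      by_cases h2 : w = z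
      · subst h2
        obtain rfl := hz' u huw.symm
        rw [(loc1 (hz huw.symm)).2.1, sy w u]
        exact (lt_sg (fun x hx => (rg u x hx).1) (hK u hu) huw).ne'
      · rw [if_neg h1] at this
        simp only [if_neg h2] at this
        rwa [(sm w h1).1]
    refine ⟨gl W n c', ⟨sy, rg, fun u w huw => ?_, fun v => ?_⟩, fun ha => ?_⟩
    · by_cases hu : u ∈ W
      · exact df u hu w huw
      by_cases hw : w ∈ W
      · exact (df w hw u huw.symm).symm
      rw [(sm u hu).1, (sm w hw).1]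
      exact hc'.2.2.1 u w ((ad u hu w).2 huw)
    · by_cases hv : v ∈ W
      exacts [(n3 v hv).1, (sm v hv).2 (hc'.2.2.2 v)]
    · have hr' := hr ((ad z zW ρ).2 ha)
      refine ⟨(e z zW ρ).trans hr'.1, ?_⟩
      by_cases hρ : ρ ∈ W
      · simpa [zW] using (n3 ρ hρ).2 z ha.symm
      · rw [(sm ρ hρ).1]
        exact hr'.2
  refine ⟨fun h z ρ γ τ hh hc hd hz kρ g1 g4 => main h z ρ γ τ hh hc hd (K_end hc kρ)
    (fun w hw => mem_singleton.1 (hz ▸ mem_N.2 hw)) g1 g4, fun h hh hc hd hE _ => ?_⟩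
  obtain ⟨c, hcol, -⟩ := main h h h 1 0 hh hc hd hE
    (fun w hw => by have := one_le_dg hw; omega) le_rfl (by norm_num)
  exact ⟨c, hcol⟩

end

end Pool.Agent.MP_d1f1f3_co.H33
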